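import Pool.Agent.H776R2.Om.Lower

/-!
The lower bound for the growth of `G_ω` with a constant that does not depend on `ω`.
-/

set_option autoImplicit false

namespace Pool.Agent.TMGrowth.OmLow

open Pool.Agent.Results.MP_03d093_al.SphereBall Pool.Agent.H776R2.Grig Pool.Agent.H776R2.Om

theorem specialu (s : ℕ) : ∃ S : ℕ, ∀ (ω : Om) (h : List Bool → Bool) (m : ℕ),
    ω (m + s) ≠ ω (m + s + 1) → ∃ w : List Lt, w.length ≤ S * ell ω m ∧
      Lab (m + s + 2) (fun u => h ((u.drop m).take (s + 1))) (evo ω w) := by
  obtain ⟨B0, hB0⟩ := base0 s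
  obtain ⟨B1, hB1⟩ := base1 (s + 1)
  refine ⟨B0 + 2 * B1 + 1, ?_⟩
  intro ω h m hm
  rcases Nat.eq_zero_or_pos m with rfl | hm0
  · have hω : ω s ≠ ω (s + 1) := by simpa using hm
    obtain ⟨w, hw, -, hlab⟩ := hB0 ω hω h
    refine ⟨w, ?_, ?_⟩
    · rw [ell_zero]
      omega
    · rw [zero_add]
      simpa using hlab
  · obtain ⟨k, rfl⟩ : ∃ k, m = k + 1 := ⟨m - 1, by omega⟩
    have hη : (shi k ω) (s + 1) ≠ (shi k ω) (s + 1 + 1) := by
      have e1 : s + 1 + k = k + 1 + s := by omega
      have e2 : s + 1 + 1 + k = k + 1 + s + 1 := by omega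
      show ω (s + 1 + k) ≠ ω (s + 1 + 1 + k)
      rw [e1, e2]
      exact hm
    obtain ⟨w, hw, hG, hlab⟩ := hB1 (shi k ω) hη h
    obtain ⟨e0, e1, v, hev, hvl, -, hyz, hA⟩ := normal_formo (shi k ω) (fun _ => 1)
      ⟨fun _ => one_pos, fun _ _ _ _ _ _ => by norm_num⟩ w
    have hyz' : ∀ y z : V, y ≠ z → Even (v.count y + v.count z) := by
      intro y z hne
      exact (hyz y z hne).2 ((hG _).add (hG _))
    have hA' : Even (v.length + e0.toNat + e1.toNat) := hA.2 (hG _)
    have hlen : ∀ x : V, Even v.length ↔ Even (v.count x) := by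
      have h1 := S_count v
      have hbc := hyz' .b .c (by decide)
      have hbd := hyz' .b .d (by decide)
      have hcd := hyz' .c .d (by decide)
      intro x
      rw [h1]
      cases x <;> rw [Nat.even_iff] at * <;> rw [Nat.even_iff] <;> omega
    have hpar : ∀ x : V, Even (v.count x) ↔ xor e0 e1 = false := by
      intro x
      rw [← hlen x]
      cases e0 <;> cases e1 <;>
        simp only [Bool.toNat_false, Bool.toNat_true, add_zero, Nat.even_add_one] at hA' <;>
        simp [hA'] <;> simpa using hA'
    have hconj : evo (shi k ω) (U v) * pa (xor e0 e1) = pa e0 * evo (shi k ω) w * pa e0 := by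
      rw [hev]
      have h1 : pa e0 * pa e0 = 1 := by rw [S_pa_mul]; simp [pa]
      have h2 : pa e1 * pa e0 = pa (xor e0 e1) := by rw [S_pa_mul, Bool.xor_comm]
      calc evo (shi k ω) (U v) * pa (xor e0 e1) =
            (pa e0 * pa e0) * evo (shi k ω) (U v) * (pa e1 * pa e0) := by
            rw [h1, h2, one_mul]
        _ = _ := by simp only [mul_assoc]
    have hlab0 : Lab (s + 1 + 2) (fun u => h ((u.drop 1).take (s + 1)))
        (evo (shi k ω) (U v) * pa (xor e0 e1)) := by
      rw [hconj]
      cases e0
      · simpa [pa] using hlab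
      · have h1 := lab_conj_a (by omega) hlab
        have h2 : pa true = a := by simp [pa]
        rw [h2]
        refine lab_congr ?_ h1
        intro u hu
        match u, hu with
        | x :: u, _ => simp [aFun]
    have hk := S_iter ω (s + 1) h (xor e0 e1) k (s + 1 + 2) 1 v (by omega) le_rfl hpar hlab0
    have hlen2 := length_thi_le ω k v
    have hvB : v.length ≤ B1 := hvl.trans hw
    have h3 : v.length * ell ω k ≤ B1 * ell ω k := Nat.mul_le_mul_right _ hvB
    have h4 := two_ell_le ω k
    have h5 := ell_pos ω (k + 1)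
    have hmain : 2 * (thi ω k v).length + 1 ≤ (B0 + 2 * B1 + 1) * ell ω (k + 1) := by
      have h6 : B1 * (2 * ell ω k) ≤ B1 * ell ω (k + 1) := Nat.mul_le_mul_left _ h4
      nlinarith [Nat.zero_le (B0 * ell ω (k + 1)), Nat.zero_le (B1 * ell ω (k + 1))]
    have hN : k + 1 + s + 2 = s + 1 + 2 + k := by omega
    have hN' : k + 1 = 1 + k := by omega
    rw [hN]
    cases hx : xor e0 e1
    · refine ⟨U (thi ω k v), ?_, ?_⟩
      · rw [S_U_length]
        omega
      · rw [hx] at hk
        rw [hN']
        simpa [pa] using hk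
    · refine ⟨U (thi ω k v) ++ [Lt.A], ?_, ?_⟩
      · rw [List.length_append, S_U_length]
        simp only [List.length_cons, List.length_nil]
        omega
      · rw [hx] at hk
        rw [hN', evo_append, evo_cons, evo_nil, mul_one]
        exact hk

theorem realizeu (r : ℕ) : ∃ A : ℕ, ∀ ω : Om, Hom r ω → ∀ (k j : ℕ), ω j ≠ ω (j + 1) →
    k + r + 2 ≤ j → j ≤ k + 2 * r + 4 → ∀ p : List Bool → Bool, ∃ w : List Lt,
    w.length ≤ A * ell ω k ∧ Lab (j + 2) (fun u => p (u.take k)) (evo ω w) := by
  choose Sc hSu using fun s => specialu s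
  set S : ℕ := ∑ s ∈ Finset.range (14 * r + 5), Sc s with hSdef
  have hSle : ∀ s, s < 14 * r + 5 → Sc s ≤ S := fun s hs =>
    Finset.single_le_sum (f := Sc) (fun _ _ => Nat.zero_le _) (Finset.mem_range.2 hs)
  set A : ℕ := 2 * S + 1 with hA
  refine ⟨A, fun ω h => ?_⟩
  have hr := hom_pos h
  have hS := fun s => hSu s ω
  intro k
  induction k using Nat.strong_induction_on with
  | _ k ih =>
    intro j hj hj1 hj2 p
    by_cases hk : k < 12 * r
    · obtain ⟨w, hw, hl⟩ := hS j (fun y => p (y.take k)) 0 (by simpa using hj)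
      refine ⟨w, ?_, ?_⟩
      · have h1 := hSle j (by omega)
        have h2 := ell_pos ω k
        rw [ell_zero, mul_one] at hw
        calc w.length ≤ Sc j := hw
          _ ≤ S := h1
          _ ≤ A * 1 := by omega
          _ ≤ A * ell ω k := Nat.mul_le_mul_left _ h2
      · rw [zero_add] at hl
        refine lab_congr ?_ hl
        intro u _
        simp only [List.drop_zero, List.take_take]
        rw [min_eq_left (by omega)]
    · obtain ⟨m, rfl⟩ : ∃ m, k = m + 12 * r := ⟨k - 12 * r, by omega⟩
      obtain ⟨ja, hja1, hja2, hja⟩ := hom_change h (m + r + 2)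
      obtain ⟨jb, hjb1, hjb2, hjb⟩ := hom_change h (m + 12 * r)
      have es1 : m + (jb - m) = jb := by omega
      have es2 : m + (j - m) = j := by omega
      obtain ⟨ws, hws, hls⟩ := hS (jb - m) (fun y => y.getD (ja + 2 - m) false) m
        (by rw [es1]; exact hjb)
      rw [es1] at hls
      have hws' : ws.length ≤ S * ell ω m :=
        hws.trans (Nat.mul_le_mul_right _ (hSle _ (by omega)))
      have key : ∀ t : List Bool, t.length = 12 * r → ∀ q : List Bool → Bool, ∃ w : List Lt,
          w.length ≤ (4 * A + 6 * S) * ell ω m ∧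
          Lab (j + 2) (fun u => decide ((u.drop m).take (12 * r) = t) && q (u.take m))
            (evo ω w) := by
        intro t ht q
        obtain ⟨we, hwe, hle⟩ := ih m (by omega) ja hja (by omega) (by omega) q
        obtain ⟨wt, hwt, hlt⟩ := hS (j - m)
          (fun y => decide (y.take (12 * r) = t) && y.getD (jb + 2 - m) false) m
          (by rw [es2]; exact hj)
        rw [es2] at hlt
        have hwt' : wt.length ≤ S * ell ω m :=
          hwt.trans (Nat.mul_le_mul_right _ (hSle _ (by omega)))
        -- first commutator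
        have hs' : Lab (jb + 2) (fun u => (fun _ : List Bool => true) (u.take (ja + 2)) &&
            u.getD (ja + 2) false) (evo ω ws) := by
          refine lab_congr ?_ hls
          intro u hu
          simp only [Bool.true_and]
          exact R_getD u m _ (ja + 2) (by omega) (by omega)
        have c1 := lab_commo ω (j := ja + 2) (n := jb + 2) (by omega)
          (q := fun v => q (v.take m)) (μ := fun _ => true) hle hs'
        have c1' : Lab (jb + 2) (fun u => q (u.take m))
            (evo ω (we ++ ws ++ we.reverse ++ ws.reverse)) := by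
          refine lab_congr ?_ c1
          intro u hu
          simp only [Bool.true_and, List.take_take]
          rw [min_eq_left (by omega)]
        -- second commutator
        have ht' : Lab (j + 2) (fun u =>
            (fun v : List Bool => decide ((v.drop m).take (12 * r) = t)) (u.take (jb + 2))
            && u.getD (jb + 2) false) (evo ω wt) := by
          refine lab_congr ?_ hlt
          intro u hu
          have e1 : ((u.drop m).take (j - m + 1)).take (12 * r) =
              ((u.take (jb + 2)).drop m).take (12 * r) := by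
            rw [List.take_take, List.drop_take, List.take_take]
            congr 1
            omega
          have e2 := R_getD u m (j - m + 1) (jb + 2) (by omega) (by omega)
          simp only [e1, e2]
        have c2 := lab_commo ω (j := jb + 2) (n := j + 2) (by omega) (q := fun v => q (v.take m))
          (μ := fun v => decide ((v.drop m).take (12 * r) = t)) c1' ht'
        refine ⟨_, ?_, lab_congr ?_ c2⟩
        · simp only [List.length_append, List.length_reverse]
          nlinarith
        · intro u hu
          have e1 : ((u.take (jb + 2)).drop m).take (12 * r) = (u.drop m).take (12 * r) := by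
            rw [List.drop_take, List.take_take]
            congr 1
            omega
          have e2 : (u.take (jb + 2)).take m = u.take m := by
            rw [List.take_take]
            congr 1
            omega
          simp only [e1, e2]
      obtain ⟨w, hw, hl⟩ := R_split (ω := ω) (n := j + 2) (m := m) (r := 12 * r) (by omega)
        _ key p
      refine ⟨w, hw.trans ?_, hl⟩
      have h8 := ell_grow h m
      calc 2 ^ (12 * r) * ((4 * A + 6 * S) * ell ω m)
          ≤ 2 ^ (12 * r) * ((8 * A) * ell ω m) := by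
            gcongr
            omega
        _ = A * (8 * 2 ^ (12 * r) * ell ω m) := by ring
        _ ≤ A * ell ω (m + 12 * r) := Nat.mul_le_mul_left _ h8

/-- `ω` below `K`, then `0, 1, 2, 0, 1, 2, ...` -/
def cut (K : ℕ) (ω : Om) : Om := fun i => if i < K then ω i else ⟨(i - K) % 3, Nat.mod_lt _ (by norm_num)⟩

theorem cut_hom (K r : ℕ) (ω : Om) (hr : 3 ≤ r)
    (h : ∀ n, n + r ≤ K → ∀ x : Fin 3, ∃ i, i < r ∧ ω (n + i) = x) : Hom (2 * r) (cut K ω) := by
  intro n x
  by_cases hn : n + r ≤ K
  · obtain ⟨i, hi, hx⟩ := h n hn x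
    refine ⟨i, by omega, ?_⟩
    unfold cut
    rw [if_pos (by omega), hx]
  · -- the window `[n + r, n + 2 r)` is beyond `K`
    obtain ⟨d, hd⟩ : ∃ d, n + r = K + d := ⟨n + r - K, by omega⟩
    have hx3 := x.2
    refine ⟨r + (x.1 + 2 * d) % 3, by omega, ?_⟩
    unfold cut
    rw [if_neg (by omega)]
    apply Fin.ext
    simp only
    have e : n + (r + (x.1 + 2 * d) % 3) - K = d + (x.1 + 2 * d) % 3 := by omega
    rw [e]
    omega

theorem nn_congr (ω ω' : Om) (k : ℕ) (h : ∀ i < k, ω i = ω' i) (x : V) : nn ω k x = nn ω' k x := by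
  induction k generalizing x with
  | zero => rfl
  | succ k ih =>
    have ih' := fun x => ih (fun i hi => h i (by omega)) x
    simp only [nn, ih', h k (by omega)]

theorem ell_congr (ω ω' : Om) (k : ℕ) (h : ∀ i < k, ω i = ω' i) : ell ω k = ell ω' k := by
  unfold ell
  rw [nn_congr ω ω' k h, nn_congr ω ω' k h, nn_congr ω ω' k h]

/-- the lower bound at one scale -/
theorem lower_scale (r : ℕ) : ∃ A : ℕ, ∀ (ω : Om) (k : ℕ),
    (∀ n, n + r ≤ k + 4 * r + 8 → ∀ x : Fin 3, ∃ i, i < r ∧ ω (n + i) = x) →
    2 ^ 2 ^ k ≤ ballO ω (A * ell ω k) := by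
  obtain ⟨A, hA⟩ := realizeu (2 * r)
  refine ⟨A, fun ω k h => ?_⟩
  set K := k + 4 * r + 8 with hK
  have hr3 : 3 ≤ r := by
    obtain ⟨i0, h0, e0⟩ := h 0 (by omega) 0
    obtain ⟨i1, h1, e1⟩ := h 0 (by omega) 1
    obtain ⟨i2, h2, e2⟩ := h 0 (by omega) 2
    have n01 : i0 ≠ i1 := by rintro rfl; rw [e0] at e1; exact absurd e1 (by decide)
    have n02 : i0 ≠ i2 := by rintro rfl; rw [e0] at e2; exact absurd e2 (by decide)
    have n12 : i1 ≠ i2 := by rintro rfl; rw [e1] at e2; exact absurd e2 (by decide)
    omega
  have hom := cut_hom K r ω hr3 h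
  have hag : ∀ i < K, ω i = cut K ω i := by
    intro i hi
    unfold cut
    rw [if_pos hi]
  obtain ⟨j, hj1, hj2, hj3⟩ := hom_change hom (k + 2 * r + 2)
  choose w hw1 hw2 using fun f : List.Vector Bool k → Bool =>
    hA (cut K ω) hom k j hj3 hj1 (by omega) (L_ext f)
  have hell : ell ω k = ell (cut K ω) k := ell_congr _ _ _ (fun i hi => hag i (by omega))
  have hlen : ∀ f, lenO ω (evG ω (w f)) ≤ A * ell ω k := fun f => by
    rw [hell]
    exact (lenO_le ω (w f)).trans (hw1 f)
  let Φ : (List.Vector Bool k → Bool) → {g : Gom ω // lenO ω g ≤ A * ell ω k} :=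
    fun f => ⟨evG ω (w f), hlen f⟩
  have hinj : Function.Injective Φ := by
    intro f f' hff
    have h1 : evo ω (w f) = evo ω (w f') := by
      have h2 : evG ω (w f) = evG ω (w f') := congrArg Subtype.val hff
      exact congrArg Subtype.val h2
    have htr : ∀ f, Lab (j + 2) (fun u => L_ext f (u.take k)) (evo ω (w f)) := by
      intro f u hu x
      rw [evo_congr (j + 3) ω (cut K ω) (fun i hi => hag i (by omega)) _ _ (by simp [hu])]
      exact hw2 f u hu x
    funext v
    have h3 := htr f
    rw [h1] at h3
    have h4 := L_unique (by omega) h3 (htr f') v.1 v.2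
    rwa [L_ext_apply, L_ext_apply] at h4
  have h5 := Nat.card_le_card_of_injective Φ hinj
  have : Finite {g : Gom ω // lenO ω g ≤ A * ell ω k} := (ballO_finite ω _).to_subtype
  have h6 : Nat.card (List.Vector Bool k → Bool) = 2 ^ 2 ^ k := by
    rw [Nat.card_eq_fintype_card, Fintype.card_fun, card_vector, Fintype.card_bool]
  rw [h6] at h5
  exact h5

end Pool.Agent.TMGrowth.OmLow
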