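import Mathlib

/-!
Words in four involutive generators `a, b, c, d` acting in a self-similar way, with additive
weights which are contracted by passing to sections.
-/

namespace Pool.Agent.TMGrowth

open Equiv

/-- The four letters. -/
inductive Ltr
  | a
  | b
  | c
  | d
deriving DecidableEq

instance : Fintype Ltr := ⟨{Ltr.a, Ltr.b, Ltr.c, Ltr.d}, by intro x; cases x <;> simp⟩

open Ltr

/-- weight of a letter -/
def w1 : Ltr → ℕ
  | a => 2
  | b => 2
  | c => 2
  | d => 1

/-- indicator of `c` or `d` -/
def k1 : Ltr → ℕ
  | a => 0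
  | b => 0
  | c => 1
  | d => 1

/-- weight of a word -/
def wt : List Ltr → ℕ
  | [] => 0
  | s :: l => w1 s + wt l

/-- number of letters `c`, `d` of a word -/
def nk : List Ltr → ℕ
  | [] => 0
  | s :: l => k1 s + nk l

/-- sections of letters -/
def sec1 : Bool → Ltr → List Ltr
  | _, a => []
  | false, b => [b]
  | true, b => [a]
  | false, c => [d]
  | true, c => [a]
  | false, d => [c]
  | true, d => []

/-- next state -/
def nx : Bool → Ltr → Bool
  | i, a => !i
  | i, _ => i

/-- state after a word -/
def st (i : Bool) : List Ltr → Bool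
  | [] => i
  | s :: l => nx (st i l) s

/-- section of a word -/
def sec (i : Bool) : List Ltr → List Ltr
  | [] => []
  | s :: l => sec1 (st i l) s ++ sec i l

/-- alternating words: `alt true` those which are empty or start with `a`, `alt false` those
which are empty or start with another letter. -/
def alt : Bool → List Ltr → Prop
  | _, [] => True
  | true, s :: l => s = a ∧ alt false l
  | false, s :: l => s ≠ a ∧ alt true l

theorem wt_append (l m : List Ltr) : wt (l ++ m) = wt l + wt m := by
  induction l with
  | nil => simp [wt]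
  | cons s l ih => simp only [List.cons_append, wt, ih]; omega

theorem length_le_wt (l : List Ltr) : l.length ≤ wt l := by
  induction l with
  | nil => simp [wt]
  | cons s l ih => cases s <;> simp only [List.length_cons, wt, w1] <;> omega

theorem wt_le_length (l : List Ltr) : wt l ≤ 2 * l.length := by
  induction l with
  | nil => simp [wt]
  | cons s l ih => cases s <;> simp only [List.length_cons, wt, w1] <;> omega

theorem st_true (l : List Ltr) : st true l = !(st false l) := by
  induction l with
  | nil => rfl
  | cons s l ih =>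
    simp only [st, ih]
    cases s <;> cases st false l <;> rfl

theorem gain_aux (l : List Ltr) :
    (alt true l → wt (sec false l) + wt (sec true l) + nk l ≤ wt l) ∧
    (alt false l → wt (sec false l) + wt (sec true l) + nk l ≤ wt l + 2) := by
  induction l with
  | nil => simp [sec, wt, nk]
  | cons s l ih =>
    have h := st_true l
    constructor
    · rintro ⟨rfl, h2⟩
      have := ih.2 h2
      simp only [sec, wt, wt_append, sec1, nk, w1, k1]
      omega
    · rintro ⟨h1, h2⟩
      have := ih.1 h2
      simp only [sec, wt, wt_append, nk, h]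
      cases hs : st false l <;> cases s <;>
        simp_all [wt, sec1, w1, k1] <;> omega

theorem gain {l : List Ltr} {i : Bool} (h : alt i l) :
    wt (sec false l) + wt (sec true l) + nk l ≤ wt l + 2 := by
  cases i
  · exact (gain_aux l).2 h
  · have := (gain_aux l).1 h
    omega

/-- A self-similar system. -/
structure Sys (X : Type) where
  psi : Bool × X ≃ X
  g : Ltr → Perm X
  sq : ∀ s, g s * g s = 1
  bc : g b * g c = g d
  ha : ∀ i x, g a (psi (i, x)) = psi (!i, x)
  hb0 : ∀ x, g b (psi (false, x)) = psi (false, g b x)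
  hb1 : ∀ x, g b (psi (true, x)) = psi (true, g a x)
  hc0 : ∀ x, g c (psi (false, x)) = psi (false, g d x)
  hc1 : ∀ x, g c (psi (true, x)) = psi (true, g a x)
  hd0 : ∀ x, g d (psi (false, x)) = psi (false, g c x)
  hd1 : ∀ x, g d (psi (true, x)) = psi (true, x)

namespace Sys

variable {X : Type} (Y : Sys X)

/-- evaluation of a word -/
def ev : List Ltr → Perm X
  | [] => 1
  | s :: l => Y.g s * ev l

theorem ev_append (l m : List Ltr) : Y.ev (l ++ m) = Y.ev l * Y.ev m := by
  induction l with
  | nil => simp [ev]
  | cons s l ih => simp only [List.cons_append, ev, ih, mul_assoc]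

theorem step (s : Ltr) (i : Bool) (x : X) :
    Y.g s (Y.psi (i, x)) = Y.psi (nx i s, Y.ev (sec1 i s) x) := by
  cases s <;> cases i <;>
    simp [nx, sec1, ev, Y.ha, Y.hb0, Y.hb1, Y.hc0, Y.hc1, Y.hd0, Y.hd1]

theorem ev_psi (l : List Ltr) (i : Bool) (x : X) :
    Y.ev l (Y.psi (i, x)) = Y.psi (st i l, Y.ev (sec i l) x) := by
  induction l with
  | nil => simp [ev, st, sec]
  | cons s l ih =>
    simp only [ev, st, sec, Perm.mul_apply, ih, step, ev_append]

theorem inv (s : Ltr) : (Y.g s)⁻¹ = Y.g s := inv_eq_of_mul_eq_one_left (Y.sq s)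

theorem cb : Y.g c * Y.g b = Y.g d := by
  have := congrArg (fun t => t⁻¹) Y.bc
  simpa [mul_inv_rev, Y.inv] using this

theorem bd : Y.g b * Y.g d = Y.g c := by
  rw [← Y.bc, ← mul_assoc, Y.sq, one_mul]

theorem db : Y.g d * Y.g b = Y.g c := by
  rw [← Y.cb, mul_assoc, Y.sq, mul_one]

theorem cd : Y.g c * Y.g d = Y.g b := by
  rw [← Y.cb, ← mul_assoc, Y.sq, one_mul]

theorem dc : Y.g d * Y.g c = Y.g b := by
  rw [← Y.bc, mul_assoc, Y.sq, mul_one]

theorem exists_alt (l : List Ltr) :
    ∃ l' : List Ltr, (∃ i, alt i l') ∧ wt l' ≤ wt l ∧ Y.ev l' = Y.ev l := by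
  induction l with
  | nil => exact ⟨[], ⟨true, trivial⟩, le_rfl, rfl⟩
  | cons s l ih =>
    obtain ⟨l', ⟨i, hi⟩, hw, he⟩ := ih
    rcases l' with _ | ⟨t, m⟩
    · refine ⟨[s], ⟨decide (s = a), ?_⟩, ?_, ?_⟩
      · cases s <;> simp [alt]
      · simp only [wt]; omega
      · simp only [ev] at he ⊢
        rw [← he]
    · have hm : Y.ev (s :: l) = Y.g s * Y.g t * Y.ev m := by
        simp only [ev] at he ⊢
        rw [← he, mul_assoc]
      have key1 : ∀ u : Ltr, Y.g s * Y.g t = Y.g u → Y.ev (u :: m) = Y.ev (s :: l) := by
        intro u hu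
        rw [hm, hu]; rfl
      have key2 : s = t → Y.ev m = Y.ev (s :: l) := by
        rintro rfl
        rw [hm, Y.sq, one_mul]
      have key3 : Y.ev (s :: t :: m) = Y.ev (s :: l) := by
        rw [hm]; simp only [ev, mul_assoc]
      cases i with
      | true =>
        obtain ⟨rfl, h2⟩ := hi
        by_cases hs : s = a
        · exact ⟨m, ⟨false, h2⟩, by simp only [wt] at hw ⊢; omega, key2 hs⟩
        · exact ⟨s :: a :: m, ⟨false, hs, rfl, h2⟩, by simp only [wt] at hw ⊢; omega, key3⟩
      | false =>
        obtain ⟨h1, h2⟩ := hi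
        by_cases hs : s = a
        · subst hs
          exact ⟨a :: t :: m, ⟨true, rfl, h1, h2⟩, by simp only [wt] at hw ⊢; omega, key3⟩
        · by_cases hst : s = t
          · exact ⟨m, ⟨true, h2⟩, by simp only [wt] at hw ⊢; omega, key2 hst⟩
          · have key4 : ∀ u : Ltr, u ≠ a → w1 u ≤ w1 s + w1 t → Y.g s * Y.g t = Y.g u →
                ∃ l' : List Ltr, (∃ i, alt i l') ∧ wt l' ≤ wt (s :: l) ∧
                  Y.ev l' = Y.ev (s :: l) := by
              intro u hu hle hg
              exact ⟨u :: m, ⟨false, hu, h2⟩, by simp only [wt] at hw ⊢; omega, key1 u hg⟩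
            cases s <;> cases t <;> first
              | exact absurd rfl hs
              | exact absurd rfl h1
              | exact absurd rfl hst
              | exact key4 d (by decide) (by decide) Y.bc
              | exact key4 c (by decide) (by decide) Y.bd
              | exact key4 d (by decide) (by decide) Y.cb
              | exact key4 b (by decide) (by decide) Y.cd
              | exact key4 c (by decide) (by decide) Y.db
              | exact key4 b (by decide) (by decide) Y.dc

/-- The permutation acting as `p.1` on the first half and as `p.2` on the second half. -/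
def E : Perm X × Perm X →* Perm X where
  toFun p := Y.psi.permCongr
    { toFun := fun z => (z.1, (if z.1 then p.2 else p.1) z.2)
      invFun := fun z => (z.1, (if z.1 then p.2 else p.1).symm z.2)
      left_inv := fun z => by simp
      right_inv := fun z => by simp }
  map_one' := by
    ext x
    obtain ⟨⟨i, y⟩, rfl⟩ := Y.psi.surjective x
    cases i <;> simp [Equiv.permCongr_apply]
  map_mul' p q := by
    ext x
    obtain ⟨⟨i, y⟩, rfl⟩ := Y.psi.surjective x
    cases i <;> simp [Equiv.permCongr_apply]

theorem E_apply_false (p : Perm X × Perm X) (x : X) :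
    Y.E p (Y.psi (false, x)) = Y.psi (false, p.1 x) := by
  simp [E, Equiv.permCongr_apply]

theorem E_apply_true (p : Perm X × Perm X) (x : X) :
    Y.E p (Y.psi (true, x)) = Y.psi (true, p.2 x) := by
  simp [E, Equiv.permCongr_apply]

theorem ev_eq (l : List Ltr) :
    Y.ev l = (if st false l then Y.g a else 1) *
      Y.E (Y.ev (sec false l), Y.ev (sec true l)) := by
  ext x
  obtain ⟨⟨i, y⟩, rfl⟩ := Y.psi.surjective x
  rw [Perm.mul_apply, ev_psi]
  cases i
  · rw [E_apply_false]
    cases st false l <;> simp [Y.ha]
  · rw [E_apply_true, st_true]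
    cases st false l <;> simp [Y.ha]

end Sys

end Pool.Agent.TMGrowth
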