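import Mathlib

/-!
Substitution subshifts, topological full groups, and intermediate growth.
-/

namespace Pool.Agent.TMGrowth

/-- The extension of a substitution to words by concatenation. -/
def substWord {A : Type} (σ : A → List A) (w : List A) : List A := w.flatMap σ

/-- The window `x_i x_{i+1} ... x_{i+L-1}` of a two-sided sequence. -/
def window {A : Type} (x : ℤ → A) (i : ℤ) (L : ℕ) : List A :=
  (List.range L).map (fun k : ℕ => x (i + k))

/-- The substitution subshift: two-sided sequences all of whose finite windows occur in some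
`σ ^ n (a)` with `n ≥ 1`. -/
def subshift {A : Type} (σ : A → List A) : Set (ℤ → A) :=
  {x | ∀ (i : ℤ) (L : ℕ), ∃ (a : A) (n : ℕ), 1 ≤ n ∧ window x i L <:+: (substWord σ)^[n] [a]}

theorem subshift_shift {A : Type} (σ : A → List A) {x : ℤ → A} (m : ℤ) (hx : x ∈ subshift σ) :
    (fun i => x (i + m)) ∈ subshift σ := by
  intro i L
  obtain ⟨a, n, hn, h⟩ := hx (i + m) L
  refine ⟨a, n, hn, ?_⟩
  have : window (fun i => x (i + m)) i L = window x (i + m) L := by
    apply List.map_congr_left
    intro k _
    exact congrArg x (show i + k + m = i + m + k by ring)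
  rw [this]
  exact h

/-- The left shift on the subshift, as a homeomorphism (`A` carries its given topology, in our
use the discrete one). -/
def shift {A : Type} [TopologicalSpace A] (σ : A → List A) : subshift σ ≃ₜ subshift σ where
  toFun x := ⟨fun i => x.1 (i + 1), subshift_shift σ 1 x.2⟩
  invFun x := ⟨fun i => x.1 (i + (-1)), subshift_shift σ (-1) x.2⟩
  left_inv x := by
    apply Subtype.ext
    funext i
    exact congrArg x.1 (show i + (-1) + 1 = i by ring)
  right_inv x := by
    apply Subtype.ext
    funext i
    exact congrArg x.1 (show i + 1 + (-1) = i by ring)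
  continuous_toFun := by
    refine Continuous.subtype_mk ?_ _
    exact continuous_pi fun i => (continuous_apply (i + 1)).comp continuous_subtype_val
  continuous_invFun := by
    refine Continuous.subtype_mk ?_ _
    exact continuous_pi fun i => (continuous_apply (i + (-1))).comp continuous_subtype_val

/-- The topological full group `[[T]]` of a homeomorphism `T`. -/
def fullGroup {X : Type} [TopologicalSpace X] (T : X ≃ₜ X) : Subgroup (X ≃ₜ X) where
  carrier := {g | ∃ n : X → ℤ, Continuous n ∧ ∀ x, g x = (T ^ n x) x}
  one_mem' := ⟨fun _ => 0, continuous_const, fun x => by simp⟩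
  mul_mem' := by
    rintro g h ⟨n, hn, hg⟩ ⟨m, hm, hh⟩
    refine ⟨fun x => n (h x) + m x, (hn.comp h.continuous).add hm, fun x => ?_⟩
    rw [zpow_add, Homeomorph.mul_apply, Homeomorph.mul_apply, hg, hh]
  inv_mem' := by
    rintro g ⟨n, hn, hg⟩
    refine ⟨fun x => - n (g⁻¹ x), (hn.comp g⁻¹.continuous).neg, fun x => ?_⟩
    have h1 := hg (g⁻¹ x)
    have h2 : g (g⁻¹ x) = x := by
      rw [← Homeomorph.mul_apply, mul_inv_cancel, Homeomorph.one_apply]
    rw [h2] at h1
    have h3 : (T ^ (- n (g⁻¹ x))) x = (T ^ (- n (g⁻¹ x))) ((T ^ n (g⁻¹ x)) (g⁻¹ x)) :=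
      congrArg _ h1
    rw [h3, ← Homeomorph.mul_apply, ← zpow_add, neg_add_cancel, zpow_zero, Homeomorph.one_apply]

/-- The ball of radius `r` of a group with respect to a set `S`: the products of at most `r`
elements of `S` or inverses of elements of `S`. -/
def ball {G : Type} [Group G] (S : Set G) (r : ℕ) : Set G :=
  {g | ∃ l : List G, l.length ≤ r ∧ (∀ s ∈ l, s ∈ S ∨ s⁻¹ ∈ S) ∧ l.prod = g}

/-- A subgroup `H` is finitely generated and has intermediate growth: for a finite generating set
`S` the number of elements of word length at most `r` is eventually larger than `r ^ d` for each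
`d`, and eventually smaller than `exp (c * r)` for each `c > 0`. -/
def IntermediateGrowth {G : Type} [Group G] (H : Subgroup G) : Prop :=
  ∃ S : Set G, S.Finite ∧ Subgroup.closure S = H ∧
    (∀ d : ℕ, ∀ᶠ r : ℕ in Filter.atTop, (r : ℝ) ^ d < ((ball S r).ncard : ℝ)) ∧
    (∀ c : ℝ, 0 < c → ∀ᶠ r : ℕ in Filter.atTop, ((ball S r).ncard : ℝ) < Real.exp (c * r))

/-- The Morse substitution `0 ↦ 01`, `1 ↦ 10` (`false` is the letter `0`). -/
def morse : Bool → List Bool
  | false => [false, true]
  | true => [true, false]

end Pool.Agent.TMGrowth
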