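import Pool.Agent.TMGrowth.Upper

/-!
Superpolynomial growth of a self-similar system in which `ab` has infinite order.
-/

namespace Pool.Agent.TMGrowth

open Equiv Ltr

namespace Sys

variable {X : Type} (Y : Sys X)

theorem E_inj : Function.Injective Y.E := by
  intro p q h
  refine Prod.ext ?_ ?_
  · ext x
    have := congrArg (fun t => t (Y.psi (false, x))) h
    simp only [E_apply_false] at this
    have := Y.psi.injective this
    exact (Prod.ext_iff.1 this).2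
  · ext x
    have := congrArg (fun t => t (Y.psi (true, x))) h
    simp only [E_apply_true] at this
    have := Y.psi.injective this
    exact (Prod.ext_iff.1 this).2

theorem e_b : Y.g b = Y.E (Y.g b, Y.g a) := by
  ext x
  obtain ⟨⟨i, y⟩, rfl⟩ := Y.psi.surjective x
  cases i
  · rw [E_apply_false, Y.hb0]
  · rw [E_apply_true, Y.hb1]

theorem e_c : Y.g c = Y.E (Y.g d, Y.g a) := by
  ext x
  obtain ⟨⟨i, y⟩, rfl⟩ := Y.psi.surjective x
  cases i
  · rw [E_apply_false, Y.hc0]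
  · rw [E_apply_true, Y.hc1]

theorem e_d : Y.g d = Y.E (Y.g c, 1) := by
  ext x
  obtain ⟨⟨i, y⟩, rfl⟩ := Y.psi.surjective x
  cases i
  · rw [E_apply_false, Y.hd0]
  · rw [E_apply_true, Y.hd1]; rfl

theorem e_a (p q : Perm X) : Y.g a * Y.E (p, q) * Y.g a = Y.E (q, p) := by
  ext x
  obtain ⟨⟨i, y⟩, rfl⟩ := Y.psi.surjective x
  cases i
  · rw [E_apply_false, Perm.mul_apply, Perm.mul_apply, Y.ha, Bool.not_false, E_apply_true, Y.ha]
    rfl
  · rw [E_apply_true, Perm.mul_apply, Perm.mul_apply, Y.ha, Bool.not_true, E_apply_false, Y.ha]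
    rfl

/-- the group generated -/
def G : Subgroup (Perm X) := Subgroup.closure (Set.range Y.g)

theorem g_mem (s : Ltr) : Y.g s ∈ Y.G := Subgroup.subset_closure ⟨s, rfl⟩

theorem ev_mem (l : List Ltr) : Y.ev l ∈ Y.G := by
  induction l with
  | nil => exact Y.G.one_mem
  | cons s l ih => exact Y.G.mul_mem (Y.g_mem s) ih

theorem inv_ev (l : List Ltr) : (Y.ev l)⁻¹ = Y.ev l.reverse := by
  induction l with
  | nil => simp [ev]
  | cons s l ih =>
    rw [List.reverse_cons, ev_append, ev, mul_inv_rev, ih, Y.inv]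
    simp [ev]

theorem mem_G {p : Perm X} : p ∈ Y.G ↔ ∃ l, Y.ev l = p := by
  constructor
  · intro h
    induction h using Subgroup.closure_induction with
    | mem x hx =>
      obtain ⟨s, rfl⟩ := hx
      exact ⟨[s], by simp [ev]⟩
    | one => exact ⟨[], rfl⟩
    | mul x y _ _ hx hy =>
      obtain ⟨l, rfl⟩ := hx
      obtain ⟨m, rfl⟩ := hy
      exact ⟨l ++ m, Y.ev_append l m⟩
    | inv x _ hx =>
      obtain ⟨l, rfl⟩ := hx
      exact ⟨l.reverse, (Y.inv_ev l).symm⟩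
  · rintro ⟨l, rfl⟩
    exact Y.ev_mem l

/-- those `p` such that `(p, 1)` lies in the group -/
def N : Subgroup (Perm X) := Y.G.comap (Y.E.comp (MonoidHom.inl _ _))

theorem mem_N {p : Perm X} : p ∈ Y.N ↔ Y.E (p, 1) ∈ Y.G := Iff.rfl

theorem c_mem_N : Y.g c ∈ Y.N := by
  rw [mem_N, ← e_d]
  exact Y.g_mem d

theorem lift (s : Ltr) : ∃ q : Perm X, Y.E (Y.g s, q) ∈ Y.G := by
  cases s
  · refine ⟨Y.g b, ?_⟩
    rw [← e_a, ← e_b]
    exact Y.G.mul_mem (Y.G.mul_mem (Y.g_mem a) (Y.g_mem b)) (Y.g_mem a)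
  · exact ⟨Y.g a, by rw [← e_b]; exact Y.g_mem b⟩
  · exact ⟨1, by rw [← e_d]; exact Y.g_mem d⟩
  · exact ⟨Y.g a, by rw [← e_c]; exact Y.g_mem c⟩

theorem lift' {p : Perm X} (hp : p ∈ Y.G) : ∃ q : Perm X, Y.E (p, q) ∈ Y.G := by
  obtain ⟨l, rfl⟩ := Y.mem_G.1 hp
  induction l with
  | nil =>
    refine ⟨1, ?_⟩
    have h1 : Y.E (1, 1) = 1 := map_one _
    rw [ev, h1]
    exact Y.G.one_mem
  | cons s l ih =>
    obtain ⟨q, hq⟩ := ih (Y.ev_mem l)
    obtain ⟨r, hr⟩ := Y.lift s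
    refine ⟨r * q, ?_⟩
    have := Y.G.mul_mem hr hq
    rwa [← map_mul] at this

theorem conj_mem {p n : Perm X} (hp : p ∈ Y.G) (hn : n ∈ Y.N) : p * n * p⁻¹ ∈ Y.N := by
  obtain ⟨q, hq⟩ := Y.lift' hp
  rw [mem_N] at hn ⊢
  have := Y.G.mul_mem (Y.G.mul_mem hq hn) (Y.G.inv_mem hq)
  rw [← map_mul, ← map_inv, ← map_mul] at this
  simpa using this

theorem ad4 : (Y.g a * Y.g d) ^ 4 = 1 := by
  have h1 : Y.g a * Y.g d * (Y.g a * Y.g d) = Y.E (Y.g c, Y.g c) := by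
    have h2 : Y.g a * Y.g d * Y.g a = Y.E (1, Y.g c) := by
      rw [e_d, e_a]
    calc Y.g a * Y.g d * (Y.g a * Y.g d) = (Y.g a * Y.g d * Y.g a) * Y.g d := by group
      _ = Y.E (1, Y.g c) * Y.g d := by rw [h2]
      _ = Y.E (Y.g c, Y.g c) := by rw [e_d, ← map_mul]; simp
  calc (Y.g a * Y.g d) ^ 4 = (Y.g a * Y.g d * (Y.g a * Y.g d)) *
        (Y.g a * Y.g d * (Y.g a * Y.g d)) := by
          simp only [pow_succ, pow_zero, one_mul, mul_assoc]
    _ = 1 := by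
      rw [h1, ← map_mul, Prod.mk_mul_mk, Y.sq]
      exact map_one _

/-- the set of elements of the dihedral group of order eight -/
def D8 (w : Perm X) : Prop := ∃ k : ℕ, w = (Y.g a * Y.g d) ^ k ∨ w = (Y.g a * Y.g d) ^ k * Y.g a

theorem a_pow (k : ℕ) : Y.g a * (Y.g a * Y.g d) ^ k * Y.g a = (Y.g a * Y.g d) ^ (3 * k) := by
  have h1 : Y.g a * (Y.g a * Y.g d) * (Y.g a)⁻¹ = (Y.g a * Y.g d) ^ 3 := by
    have h2 : (Y.g a * Y.g d) ^ 3 = (Y.g a * Y.g d)⁻¹ := by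
      apply eq_inv_of_mul_eq_one_left
      rw [← pow_succ]; exact Y.ad4
    rw [h2, mul_inv_rev, Y.inv, Y.inv, ← mul_assoc, Y.sq, one_mul]
  have h3 : Y.g a * (Y.g a * Y.g d) ^ k * (Y.g a)⁻¹ = (Y.g a * (Y.g a * Y.g d) * (Y.g a)⁻¹) ^ k :=
    (conj_pow).symm
  rw [Y.inv] at h3
  rw [h3]
  rw [Y.inv] at h1
  rw [h1, ← pow_mul]

theorem D8_a {w : Perm X} (h : Y.D8 w) : Y.D8 (Y.g a * w) := by
  obtain ⟨k, rfl | rfl⟩ := h
  · refine ⟨3 * k, Or.inr ?_⟩
    rw [← Y.a_pow k, mul_assoc _ (Y.g a) (Y.g a), Y.sq, mul_one]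
  · refine ⟨3 * k, Or.inl ?_⟩
    rw [← Y.a_pow k, mul_assoc]

theorem D8_r {w : Perm X} (h : Y.D8 w) : Y.D8 ((Y.g a * Y.g d) * w) := by
  obtain ⟨k, rfl | rfl⟩ := h
  · exact ⟨k + 1, Or.inl (by rw [pow_succ'])⟩
  · exact ⟨k + 1, Or.inr (by rw [pow_succ']; simp only [mul_assoc])⟩

theorem D8_d {w : Perm X} (h : Y.D8 w) : Y.D8 (Y.g d * w) := by
  have h1 := Y.D8_a (Y.D8_r h)
  have h2 : Y.g a * (Y.g a * Y.g d * w) = Y.g d * w := by
    rw [← mul_assoc, ← mul_assoc, Y.sq, one_mul]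
  rwa [h2] at h1

theorem D8_pow {w : Perm X} (h : Y.D8 w) : w ^ 4 = 1 := by
  obtain ⟨k, rfl | rfl⟩ := h
  · rw [← pow_mul, mul_comm, pow_mul, Y.ad4, one_pow]
  · have h1 : ((Y.g a * Y.g d) ^ k * Y.g a) ^ 2 = 1 := by
      calc ((Y.g a * Y.g d) ^ k * Y.g a) ^ 2 =
            (Y.g a * Y.g d) ^ k * (Y.g a * (Y.g a * Y.g d) ^ k * Y.g a) := by
            rw [pow_two]; simp only [mul_assoc]
        _ = ((Y.g a * Y.g d) ^ 4) ^ k := by
            rw [Y.a_pow, ← pow_add, ← pow_mul]; congr 1; ring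
        _ = 1 := by rw [Y.ad4, one_pow]
    calc ((Y.g a * Y.g d) ^ k * Y.g a) ^ 4 = (((Y.g a * Y.g d) ^ k * Y.g a) ^ 2) ^ 2 := by
          rw [← pow_mul]
      _ = 1 := by rw [h1, one_pow]

theorem D8_mem {w : Perm X} (h : Y.D8 w) : w ∈ Y.G := by
  have hr : Y.g a * Y.g d ∈ Y.G := Y.G.mul_mem (Y.g_mem a) (Y.g_mem d)
  obtain ⟨k, rfl | rfl⟩ := h
  · exact Y.G.pow_mem hr k
  · exact Y.G.mul_mem (Y.G.pow_mem hr k) (Y.g_mem a)

theorem decomp (l : List Ltr) : ∃ n w, n ∈ Y.N ∧ Y.D8 w ∧ Y.ev l = n * w := by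
  have hD : ∀ m : Perm X, (∃ n w, n ∈ Y.N ∧ Y.D8 w ∧ m = n * w) →
      ∃ n w, n ∈ Y.N ∧ Y.D8 w ∧ Y.g d * m = n * w := by
    rintro m ⟨n, w, hn, hw, rfl⟩
    refine ⟨Y.g d * n * (Y.g d)⁻¹, Y.g d * w, Y.conj_mem (Y.g_mem d) hn, Y.D8_d hw, ?_⟩
    group
  have hC : ∀ m : Perm X, (∃ n w, n ∈ Y.N ∧ Y.D8 w ∧ m = n * w) →
      ∃ n w, n ∈ Y.N ∧ Y.D8 w ∧ Y.g c * m = n * w := by
    rintro m ⟨n, w, hn, hw, rfl⟩
    exact ⟨Y.g c * n, w, Y.N.mul_mem Y.c_mem_N hn, hw, by rw [mul_assoc]⟩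
  induction l with
  | nil => exact ⟨1, 1, Y.N.one_mem, ⟨0, Or.inl (by simp)⟩, by simp [ev]⟩
  | cons s l ih =>
    rw [ev]
    cases s
    · obtain ⟨n, w, hn, hw, he⟩ := ih
      refine ⟨Y.g a * n * (Y.g a)⁻¹, Y.g a * w, Y.conj_mem (Y.g_mem a) hn, Y.D8_a hw, ?_⟩
      rw [he]; group
    · rw [← Y.cd, mul_assoc]
      exact hC _ (hD _ ih)
    · exact hC _ ih
    · exact hD _ ih

theorem pow4 {p : Perm X} (hp : p ∈ Y.G) : Y.E (p ^ 4, 1) ∈ Y.G := by
  obtain ⟨l, rfl⟩ := Y.mem_G.1 hp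
  obtain ⟨n, w, hn, hw, he⟩ := Y.decomp l
  rw [← mem_N, he]
  have hwG := Y.D8_mem hw
  have h4 := Y.D8_pow hw
  have hh : (n * w) ^ 4 = n * (w * n * w⁻¹) * (w ^ 2 * n * (w ^ 2)⁻¹) *
      (w ^ 3 * n * (w ^ 3)⁻¹) * w ^ 4 := by
    simp only [pow_succ, pow_zero, one_mul]
    group
  rw [hh, h4, mul_one]
  exact Y.N.mul_mem (Y.N.mul_mem (Y.N.mul_mem hn (Y.conj_mem hwG hn))
    (Y.conj_mem (Y.G.pow_mem hwG 2) hn)) (Y.conj_mem (Y.G.pow_mem hwG 3) hn)

theorem pow4' {p : Perm X} (hp : p ∈ Y.G) : Y.E (1, p ^ 4) ∈ Y.G := by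
  rw [← Y.e_a]
  exact Y.G.mul_mem (Y.G.mul_mem (Y.g_mem a) (Y.pow4 hp)) (Y.g_mem a)

theorem hom (hinf : ¬ IsOfFinOrder (Y.g a * Y.g b)) (D : ℕ) :
    ∃ f : Multiplicative (Fin D → ℤ) →* Perm X, Function.Injective f ∧ ∀ v, f v ∈ Y.G := by
  induction D with
  | zero =>
    refine ⟨1, ?_, fun v => Y.G.one_mem⟩
    intro v w _
    apply Multiplicative.toAdd.injective
    exact Subsingleton.elim _ _
  | succ D ih =>
    obtain ⟨f, hf, hG⟩ := ih
    have ht : Y.g a * Y.g b ∈ Y.G := Y.G.mul_mem (Y.g_mem a) (Y.g_mem b)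
    have ht4 : ¬ IsOfFinOrder ((Y.g a * Y.g b) ^ 4) := by
      rw [isOfFinOrder_pow]
      simp [hinf]
    have hz := injective_zpow_iff_not_isOfFinOrder.2 ht4
    refine ⟨MonoidHom.mk' (fun v => Y.E (((Y.g a * Y.g b) ^ 4) ^ (v.toAdd 0),
      f (Multiplicative.ofAdd (fun i => 4 * v.toAdd i.succ)))) ?_, ?_, ?_⟩
    · intro v w
      rw [← map_mul, Prod.mk_mul_mk, ← map_mul, ← zpow_add]
      congr 3
      · rw [← ofAdd_add]
        congr 1
        funext i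
        simp [mul_add]
    · intro v w h
      have h1 := Y.E_inj h
      rw [Prod.mk.injEq] at h1
      obtain ⟨h2, h3⟩ := h1
      have h2' := hz h2
      have h3' := Multiplicative.ofAdd.injective (hf h3)
      apply Multiplicative.toAdd.injective
      funext i
      refine Fin.cases ?_ ?_ i
      · exact h2'
      · intro j
        have := congrFun h3' j
        omega
    · intro v
      have e1 : Y.E (((Y.g a * Y.g b) ^ 4) ^ (v.toAdd 0), 1) ∈ Y.G := by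
        rw [← zpow_natCast, ← zpow_mul, mul_comm, zpow_mul, zpow_natCast]
        exact Y.pow4 (Y.G.zpow_mem ht _)
      have e2 : Y.E (1, f (Multiplicative.ofAdd (fun i => 4 * v.toAdd i.succ))) ∈ Y.G := by
        have : f (Multiplicative.ofAdd (fun i => 4 * v.toAdd i.succ)) =
            (f (Multiplicative.ofAdd (fun i => v.toAdd i.succ))) ^ 4 := by
          rw [← map_pow, ← ofAdd_nsmul]
          congr 2
        rw [this]
        exact Y.pow4' (hG _)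
      have := Y.G.mul_mem e1 e2
      rw [← map_mul] at this
      simpa using this

theorem S_one : (1 : Perm X) ∈ Y.S 0 := Y.mem_S.2 ⟨[], le_rfl, rfl⟩

theorem S_mul {m n : ℕ} {p q : Perm X} (hp : p ∈ Y.S m) (hq : q ∈ Y.S n) :
    p * q ∈ Y.S (m + n) := by
  obtain ⟨l, hl, rfl⟩ := Y.mem_S.1 hp
  obtain ⟨l', hl', rfl⟩ := Y.mem_S.1 hq
  exact Y.mem_S.2 ⟨l ++ l', by rw [wt_append]; omega, Y.ev_append _ _⟩

theorem S_pow {m : ℕ} {p : Perm X} (hp : p ∈ Y.S m) (k : ℕ) : p ^ k ∈ Y.S (k * m) := by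
  induction k with
  | zero => simpa using Y.S_one
  | succ k ih =>
    rw [pow_succ, Nat.succ_mul]
    exact Y.S_mul ih hp

theorem S_mono {m n : ℕ} (h : m ≤ n) {p : Perm X} (hp : p ∈ Y.S m) : p ∈ Y.S n := by
  obtain ⟨l, hl, rfl⟩ := Y.mem_S.1 hp
  exact Y.mem_S.2 ⟨l, hl.trans h, rfl⟩

theorem lower (hinf : ¬ IsOfFinOrder (Y.g a * Y.g b)) (D : ℕ) :
    ∃ L : ℕ, ∀ n : ℕ, (n + 1) ^ D ≤ (Y.S (L * n)).card := by
  classical
  obtain ⟨f, hf, hG⟩ := Y.hom hinf D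
  have hgen : ∀ i : Fin D, ∃ m, f (Multiplicative.ofAdd (Pi.single i 1)) ∈ Y.S m := by
    intro i
    obtain ⟨l, hl⟩ := Y.mem_G.1 (hG (Multiplicative.ofAdd (Pi.single i 1)))
    exact ⟨wt l, Y.mem_S.2 ⟨l, le_rfl, hl⟩⟩
  choose M hM using hgen
  refine ⟨∑ i, M i, fun n => ?_⟩
  have key : ∀ (k : Fin D → ℕ) (s : Finset (Fin D)),
      f (Multiplicative.ofAdd (fun i => if i ∈ s then (k i : ℤ) else 0)) ∈
        Y.S (∑ i ∈ s, k i * M i) := by
    intro k s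
    induction s using Finset.induction_on with
    | empty =>
      simp only [Finset.notMem_empty, if_false, Finset.sum_empty]
      have : (Multiplicative.ofAdd (fun _ : Fin D => (0 : ℤ))) = 1 := rfl
      rw [this, map_one]
      exact Y.S_one
    | insert j s hj ih =>
      rw [Finset.sum_insert hj]
      have : (Multiplicative.ofAdd (fun i => if i ∈ insert j s then (k i : ℤ) else 0)) =
          (Multiplicative.ofAdd (Pi.single j (1 : ℤ))) ^ (k j) *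
            Multiplicative.ofAdd (fun i => if i ∈ s then (k i : ℤ) else 0) := by
        rw [← ofAdd_nsmul, ← ofAdd_add]
        congr 1
        funext i
        by_cases hij : i = j
        · subst hij
          simp [hj]
        · simp [hij]
      rw [this, map_mul, map_pow]
      exact Y.S_mul (Y.S_pow (hM j) (k j)) ih
  have hcard : (Fintype.piFinset (fun _ : Fin D => Finset.range (n + 1))).card = (n + 1) ^ D := by
    simp
  rw [← hcard]
  apply Finset.card_le_card_of_injOn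
    (fun k => f (Multiplicative.ofAdd (fun i => if i ∈ Finset.univ then (k i : ℤ) else 0)))
  · intro k hk
    have hk' := Fintype.mem_piFinset.1 (Finset.mem_coe.1 hk)
    refine Finset.mem_coe.2 (Y.S_mono ?_ (key k Finset.univ))
    rw [Finset.sum_mul]
    apply Finset.sum_le_sum
    intro i _
    have := Finset.mem_range.1 (hk' i)
    rw [mul_comm]
    exact Nat.mul_le_mul_left _ (by omega)
  · intro k _ k' _ h
    have h1 := Multiplicative.ofAdd.injective (hf h)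
    funext i
    have := congrFun h1 i
    simpa using this

end Sys

end Pool.Agent.TMGrowth
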