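import Pool.Agent.TMGrowth.Seq
import Pool.Agent.TMGrowth.Lower

/-!
The self-similar system inside the topological full group of the Thue–Morse subshift.
-/

namespace Pool.Agent.TMGrowth

open Equiv Ltr

section swap

variable {X : Type} [TopologicalSpace X] (T : X ≃ₜ X)

theorem continuous_zpow_apply (n : X → ℤ) (hn : Continuous n) :
    Continuous (fun x => (T ^ n x) x) := by
  have h : Continuous (fun z : ℤ × X => (T ^ z.1) z.2) :=
    continuous_prod_of_discrete_left.2 (fun m => (T ^ m).continuous)
  exact h.comp (hn.prodMk continuous_id)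

/-- swapping along the edges selected by `P` -/
def swFun (P : X → Bool) (x : X) : X :=
  if P x = true then T x else if P (T.symm x) = true then T.symm x else x

/-- the exponent -/
def swExp (P : X → Bool) (x : X) : ℤ :=
  if P x = true then 1 else if P (T.symm x) = true then -1 else 0

theorem swFun_eq (P : X → Bool) (x : X) : swFun T P x = (T ^ swExp T P x) x := by
  unfold swFun swExp
  split_ifs
  · simp
  · simp
  · simp

theorem swFun_invol (P : X → Bool) (hP : ∀ x, P x = true → P (T x) = false) (x : X) :
    swFun T P (swFun T P x) = x := by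
  by_cases h1 : P x = true
  · have h2 := hP x h1
    have e : swFun T P x = T x := by rw [swFun, if_pos h1]
    rw [e, swFun, if_neg (by simp [h2])]
    simp [h1]
  · by_cases h3 : P (T.symm x) = true
    · have e : swFun T P x = T.symm x := by rw [swFun, if_neg h1, if_pos h3]
      rw [e, swFun, if_pos h3]
      simp
    · have e : swFun T P x = x := by rw [swFun, if_neg h1, if_neg h3]
      rw [e, e]

theorem swExp_cont (P : X → Bool) (hc : Continuous P) : Continuous (swExp T P) := by
  have h1 : Continuous (fun x => (P x, P (T.symm x))) :=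
    hc.prodMk (hc.comp T.symm.continuous)
  have h2 : Continuous (fun z : Bool × Bool =>
      (if z.1 = true then (1 : ℤ) else if z.2 = true then -1 else 0)) :=
    continuous_of_discreteTopology
  exact h2.comp h1

theorem swFun_cont (P : X → Bool) (hc : Continuous P) : Continuous (swFun T P) := by
  have : swFun T P = fun x => (T ^ swExp T P x) x := funext (swFun_eq T P)
  rw [this]
  exact continuous_zpow_apply T _ (swExp_cont T P hc)

/-- the swap as a homeomorphism -/
def sw (P : X → Bool) (hP : ∀ x, P x = true → P (T x) = false) (hc : Continuous P) : X ≃ₜ X where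
  toFun := swFun T P
  invFun := swFun T P
  left_inv := swFun_invol T P hP
  right_inv := swFun_invol T P hP
  continuous_toFun := swFun_cont T P hc
  continuous_invFun := swFun_cont T P hc

theorem sw_mem (P : X → Bool) (hP : ∀ x, P x = true → P (T x) = false) (hc : Continuous P) :
    sw T P hP hc ∈ fullGroup T :=
  ⟨swExp T P, swExp_cont T P hc, swFun_eq T P⟩

end swap

/-- the shift of the Thue–Morse subshift -/
def T : subshift morse ≃ₜ subshift morse := shift morse

theorem T_val (x : subshift morse) (i : ℤ) : (T x).1 i = x.1 (i + 1) := rfl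

theorem Ts_val (x : subshift morse) (i : ℤ) : (T.symm x).1 i = x.1 (i + (-1)) := rfl

/-- phase of a point -/
def phX (x : subshift morse) : Bool := ph x.1

theorem phX_T (x : subshift morse) : phX (T x) = !(phX x) := ph_shift x.2 1 (by norm_num)

theorem phX_Ts (x : subshift morse) : phX (T.symm x) = !(phX x) := ph_shift x.2 (-1) (by norm_num)

/-- edge predicates of the four generators -/
def Pl : Ltr → subshift morse → Bool
  | a, x => !(phX x)
  | b, x => phX x
  | c, x => phX x && (x.1 0 == x.1 1)
  | d, x => phX x && !(x.1 0 == x.1 1)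

theorem Pl_T (s : Ltr) (x : subshift morse) (h : Pl s x = true) : Pl s (T x) = false := by
  have h1 := phX_T x
  cases s <;> simp only [Pl, h1] at h ⊢ <;> cases h2 : phX x <;> simp_all

theorem phX_cont : Continuous phX := by
  have h1 : Continuous (fun x : subshift morse => ((x.1 0, x.1 1), (x.1 2, x.1 3))) := by
    refine Continuous.prodMk (Continuous.prodMk ?_ ?_) (Continuous.prodMk ?_ ?_) <;>
      exact (continuous_apply _).comp continuous_subtype_val
  have h2 : Continuous (fun z : (Bool × Bool) × (Bool × Bool) =>
      (z.1.1 == z.1.2) || (z.2.1 == z.2.2)) := continuous_of_discreteTopology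
  exact h2.comp h1

theorem Pl_cont (s : Ltr) : Continuous (Pl s) := by
  have h1 : Continuous (fun x : subshift morse => (phX x, (x.1 0, x.1 1))) := by
    refine Continuous.prodMk phX_cont (Continuous.prodMk ?_ ?_) <;>
      exact (continuous_apply _).comp continuous_subtype_val
  cases s
  · exact (continuous_of_discreteTopology (f := fun z : Bool × (Bool × Bool) => !z.1)).comp h1
  · exact (continuous_of_discreteTopology (f := fun z : Bool × (Bool × Bool) => z.1)).comp h1
  · exact (continuous_of_discreteTopology
      (f := fun z : Bool × (Bool × Bool) => z.1 && (z.2.1 == z.2.2))).comp h1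
  · exact (continuous_of_discreteTopology
      (f := fun z : Bool × (Bool × Bool) => z.1 && !(z.2.1 == z.2.2))).comp h1

/-- the generators -/
def gen (s : Ltr) : subshift morse ≃ₜ subshift morse := sw T (Pl s) (Pl_T s) (Pl_cont s)

theorem gen_apply (s : Ltr) (x : subshift morse) : gen s x = swFun T (Pl s) x := rfl

theorem A_false {x : subshift morse} (h : phX x = false) : gen a x = T x := by
  rw [gen_apply, swFun, if_pos (by simp [Pl, h])]

theorem A_true {x : subshift morse} (h : phX x = true) : gen a x = T.symm x := by
  rw [gen_apply, swFun, if_neg (by simp [Pl, h]), if_pos (by simp [Pl, phX_Ts, h])]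

theorem Pl_false {s : Ltr} (hs : s ≠ a) {x : subshift morse} (h : phX x = false) :
    Pl s x = false := by
  cases s
  · exact absurd rfl hs
  all_goals simp [Pl, h]

theorem K_true {s : Ltr} (hs : s ≠ a) {x : subshift morse} (h : phX x = true) :
    gen s x = if Pl s x = true then T x else x := by
  have h1 : Pl s (T.symm x) = false := Pl_false hs (by rw [phX_Ts, h]; rfl)
  rw [gen_apply, swFun, h1]
  simp

theorem K_false {s : Ltr} (hs : s ≠ a) {x : subshift morse} (h : phX x = false) :
    gen s x = if Pl s (T.symm x) = true then T.symm x else x := by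
  rw [gen_apply, swFun, Pl_false hs h]
  simp

/-- the substitution on the subshift -/
def sX (y : subshift morse) : subshift morse := ⟨sg y.1, sg_mem y.2⟩

theorem phX_sX (y : subshift morse) : phX (sX y) = false := ph_sg y.1

theorem phX_TsX (y : subshift morse) : phX (T (sX y)) = true := by
  rw [phX_T, phX_sX]; rfl

theorem TT_sX (y : subshift morse) : T (T (sX y)) = sX (T y) := by
  apply Subtype.ext
  funext i
  show sg y.1 (i + 1 + 1) = sg (fun j => y.1 (j + 1)) i
  rcases Int.even_or_odd' i with ⟨m, rfl | rfl⟩
  · rw [sg_even, show 2 * m + 1 + 1 = 2 * (m + 1) by ring, sg_even]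
  · rw [sg_odd, show 2 * m + 1 + 1 + 1 = 2 * (m + 1) + 1 by ring, sg_odd]

theorem Ts_sX (y : subshift morse) : T.symm (sX y) = T (sX (T.symm y)) := by
  rw [Homeomorph.symm_apply_eq, TT_sX, Homeomorph.apply_symm_apply]

theorem sX_inj {y z : subshift morse} (h : sX y = sX z) : y = z :=
  Subtype.ext (sg_inj (congrArg Subtype.val h))

theorem sX_surj {x : subshift morse} (h : phX x = false) : ∃ y, sX y = x :=
  ⟨⟨dg x.1, dg_mem x.2 h⟩, Subtype.ext (sg_dg x.2 h)⟩

/-- the coordinates -/
def psiFun (z : Bool × subshift morse) : subshift morse :=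
  if xor z.1 (phX z.2) = true then T (sX z.2) else sX z.2

theorem phX_psi (z : Bool × subshift morse) : phX (psiFun z) = xor z.1 (phX z.2) := by
  unfold psiFun
  split_ifs with h
  · rw [phX_TsX, h]
  · rw [phX_sX]
    simpa using h

theorem psi_bij : Function.Bijective psiFun := by
  constructor
  · rintro ⟨i, y⟩ ⟨j, z⟩ h
    have h1 := congrArg phX h
    rw [phX_psi, phX_psi] at h1
    simp only at h1
    have hyz : y = z := by
      unfold psiFun at h
      simp only [← h1] at h
      split_ifs at h
      · exact sX_inj (T.injective h)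
      · exact sX_inj h
    subst hyz
    have : i = j := Bool.xor_left_inj.1 h1
    rw [this]
  · intro x
    cases h : phX x
    · obtain ⟨y, rfl⟩ := sX_surj h
      refine ⟨(phX y, y), ?_⟩
      simp [psiFun]
    · have h1 : phX (T.symm x) = false := by rw [phX_Ts, h]; rfl
      obtain ⟨y, hy⟩ := sX_surj h1
      refine ⟨(!(phX y), y), ?_⟩
      have : psiFun (!(phX y), y) = T (sX y) := by
        unfold psiFun
        rw [if_pos]
        cases phX y <;> rfl
      rw [this, hy, Homeomorph.apply_symm_apply]

/-- the involution `b ↦ b`, `c ↦ d`, `d ↦ c` -/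
def fl : Ltr → Ltr
  | a => a
  | b => b
  | c => d
  | d => c

theorem Ts_ne (y : subshift morse) (h : phX y = false) : y.1 0 ≠ y.1 1 := by
  have := ph_false y.2 h (i := 0) (by norm_num)
  simpa using this

theorem Pl_sX_true {s : Ltr} (hs : s ≠ a) {y : subshift morse} (h : phX y = true) :
    Pl s (T (sX y)) = Pl (fl s) y := by
  have h0 : (T (sX y)).1 0 = !(y.1 0) := by
    show sg y.1 (0 + 1) = _
    exact sg_odd y.1 0
  have h1 : (T (sX y)).1 1 = y.1 1 := by
    show sg y.1 (1 + 1) = _
    exact sg_even y.1 1
  cases s
  · exact absurd rfl hs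
  · simp [Pl, fl, phX_TsX, h]
  · simp only [Pl, fl, phX_TsX, h, h0, h1]
    cases y.1 0 <;> cases y.1 1 <;> rfl
  · simp only [Pl, fl, phX_TsX, h, h0, h1]
    cases y.1 0 <;> cases y.1 1 <;> rfl

theorem Pl_sX_false {s : Ltr} (hs : s ≠ a) {y : subshift morse} (h : phX y = false) :
    Pl s (T (sX y)) = !(decide (s = d)) := by
  have h0 : (T (sX y)).1 0 = !(y.1 0) := by
    show sg y.1 (0 + 1) = _
    exact sg_odd y.1 0
  have h1 : (T (sX y)).1 1 = y.1 1 := by
    show sg y.1 (1 + 1) = _
    exact sg_even y.1 1
  have h2 := Ts_ne y h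
  cases s
  · exact absurd rfl hs
  · simp [Pl, phX_TsX]
  · simp only [Pl, phX_TsX, h0, h1]
    cases h3 : y.1 0 <;> cases h4 : y.1 1 <;> simp_all
  · simp only [Pl, phX_TsX, h0, h1]
    cases h3 : y.1 0 <;> cases h4 : y.1 1 <;> simp_all

theorem psi_false_false {y : subshift morse} (h : phX y = false) : psiFun (false, y) = sX y := by
  simp [psiFun, h]

theorem psi_false_true {y : subshift morse} (h : phX y = true) :
    psiFun (false, y) = T (sX y) := by
  simp [psiFun, h]

theorem psi_true_false {y : subshift morse} (h : phX y = false) :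
    psiFun (true, y) = T (sX y) := by
  simp [psiFun, h]

theorem psi_true_true {y : subshift morse} (h : phX y = true) : psiFun (true, y) = sX y := by
  simp [psiFun, h]

theorem K0 {s : Ltr} (hs : s ≠ a) (y : subshift morse) :
    gen s (psiFun (false, y)) = psiFun (false, gen (fl s) y) := by
  have hs' : fl s ≠ a := by cases s <;> simp_all [fl]
  cases h : phX y
  · have hy' : phX (T.symm y) = true := by rw [phX_Ts, h]; rfl
    rw [psi_false_false h, K_false hs (phX_sX y), Ts_sX, Pl_sX_true hs hy', K_false hs' h]
    split_ifs with h1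
    · rw [psi_false_true hy']
    · rw [psi_false_false h]
  · have hy' : phX (T y) = false := by rw [phX_T, h]; rfl
    rw [psi_false_true h, K_true hs (phX_TsX y), Pl_sX_true hs h, K_true hs' h, TT_sX]
    split_ifs with h1
    · rw [psi_false_false hy']
    · rw [psi_false_true h]

theorem K1 {s : Ltr} (hs : s ≠ a) (hd : s ≠ d) (y : subshift morse) :
    gen s (psiFun (true, y)) = psiFun (true, gen a y) := by
  cases h : phX y
  · have hy' : phX (T y) = true := by rw [phX_T, h]; rfl
    rw [psi_true_false h, K_true hs (phX_TsX y), Pl_sX_false hs h, A_false h, psi_true_true hy',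
      TT_sX]
    simp [hd]
  · have hy' : phX (T.symm y) = false := by rw [phX_Ts, h]; rfl
    rw [psi_true_true h, K_false hs (phX_sX y), Ts_sX, Pl_sX_false hs hy', A_true h,
      psi_true_false hy']
    simp [hd]

theorem D1 (y : subshift morse) : gen d (psiFun (true, y)) = psiFun (true, y) := by
  have hs : d ≠ a := by simp
  cases h : phX y
  · rw [psi_true_false h, K_true hs (phX_TsX y), Pl_sX_false hs h]
    simp
  · have hy' : phX (T.symm y) = false := by rw [phX_Ts, h]; rfl
    rw [psi_true_true h, K_false hs (phX_sX y), Ts_sX, Pl_sX_false hs hy']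
    simp

theorem Aa (i : Bool) (y : subshift morse) : gen a (psiFun (i, y)) = psiFun (!i, y) := by
  cases i <;> cases h : phX y
  · rw [psi_false_false h, A_false (phX_sX y), Bool.not_false, psi_true_false h]
  · rw [psi_false_true h, A_true (phX_TsX y), Bool.not_false, psi_true_true h,
      Homeomorph.symm_apply_apply]
  · rw [psi_true_false h, A_true (phX_TsX y), Bool.not_true, psi_false_false h,
      Homeomorph.symm_apply_apply]
  · rw [psi_true_true h, A_false (phX_sX y), Bool.not_true, psi_false_true h]

theorem gen_sq (s : Ltr) : gen s * gen s = 1 :=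
  Homeomorph.ext fun x => swFun_invol T (Pl s) (Pl_T s) x

theorem gen_bc : gen b * gen c = gen d := by
  have hb : b ≠ a := by simp
  have hc : c ≠ a := by simp
  have hd : d ≠ a := by simp
  apply Homeomorph.ext
  intro x
  rw [Homeomorph.mul_apply]
  cases h : phX x
  · have h' : phX (T.symm x) = true := by rw [phX_Ts, h]; rfl
    rw [K_false hc h, K_false hd h]
    cases h2 : ((T.symm x).1 0 == (T.symm x).1 1)
    · have e1 : Pl c (T.symm x) = false := by simp [Pl, h', h2]
      have e2 : Pl d (T.symm x) = true := by simp only [Pl, h', h2]; rfl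
      have e3 : Pl b (T.symm x) = true := by simp [Pl, h']
      rw [e1, e2]
      simp only [Bool.false_eq_true, if_false, if_true]
      rw [K_false hb h, e3]
      simp
    · have e1 : Pl c (T.symm x) = true := by simp only [Pl, h', h2]; rfl
      have e2 : Pl d (T.symm x) = false := by simp only [Pl, h', h2]; rfl
      have e3 : Pl b (T.symm x) = true := by simp [Pl, h']
      rw [e1, e2]
      simp only [Bool.false_eq_true, if_false, if_true]
      rw [K_true hb h', e3]
      simp
  · have h' : phX (T x) = false := by rw [phX_T, h]; rfl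
    rw [K_true hc h, K_true hd h]
    cases h2 : (x.1 0 == x.1 1)
    · have e1 : Pl c x = false := by simp [Pl, h, h2]
      have e2 : Pl d x = true := by simp only [Pl, h, h2]; rfl
      have e3 : Pl b x = true := by simp [Pl, h]
      rw [e1, e2]
      simp only [Bool.false_eq_true, if_false, if_true]
      rw [K_true hb h, e3]
      simp
    · have e1 : Pl c x = true := by simp only [Pl, h, h2]; rfl
      have e2 : Pl d x = false := by simp only [Pl, h, h2]; rfl
      have e3 : Pl b x = true := by simp [Pl, h]
      rw [e1, e2]
      simp only [Bool.false_eq_true, if_false, if_true]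
      rw [K_false hb h', Homeomorph.symm_apply_apply, e3]
      simp

/-- forgetting the topology -/
def toP {X : Type} [TopologicalSpace X] : (X ≃ₜ X) →* Perm X where
  toFun g := g.toEquiv
  map_one' := rfl
  map_mul' _ _ := rfl

theorem toP_apply {X : Type} [TopologicalSpace X] (g : X ≃ₜ X) (x : X) : toP g x = g x := rfl

theorem toP_inj {X : Type} [TopologicalSpace X] : Function.Injective (toP (X := X)) := by
  intro g h hgh
  apply Homeomorph.ext
  intro x
  exact congrArg (fun q : Perm X => q x) hgh

/-- the self-similar system -/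
noncomputable def Y : Sys (subshift morse) where
  psi := Equiv.ofBijective psiFun psi_bij
  g s := toP (gen s)
  sq s := by rw [← map_mul, gen_sq, map_one]
  bc := by rw [← map_mul, gen_bc]
  ha i x := Aa i x
  hb0 x := K0 (s := b) (by simp) x
  hb1 x := K1 (s := b) (by simp) (by simp) x
  hc0 x := K0 (s := c) (by simp) x
  hc1 x := K1 (s := c) (by simp) (by simp) x
  hd0 x := K0 (s := d) (by simp) x
  hd1 x := D1 x

theorem ab_pow (n : ℕ) (x : subshift morse) (hx : phX x = true) :
    ((gen a * gen b) ^ n) x = (T ^ (2 * n)) x := by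
  induction n with
  | zero => simp
  | succ n ih =>
    have h1 : phX ((T ^ (2 * n)) x) = true := by
      clear ih
      induction n with
      | zero => simpa using hx
      | succ n ih =>
        rw [show 2 * (n + 1) = 2 * n + 1 + 1 by ring, pow_succ', pow_succ',
          Homeomorph.mul_apply, Homeomorph.mul_apply, phX_T, phX_T, ih]
        rfl
    rw [pow_succ', Homeomorph.mul_apply, ih, Homeomorph.mul_apply,
      K_true (s := b) (by simp) h1]
    have e : Pl b ((T ^ (2 * n)) x) = true := by simp [Pl, h1]
    rw [if_pos e, A_false (by rw [phX_T, h1]; rfl),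
      show 2 * (n + 1) = 2 * n + 1 + 1 by ring, pow_succ', pow_succ',
      Homeomorph.mul_apply, Homeomorph.mul_apply]

theorem Tpow_val (n : ℕ) (x : subshift morse) (i : ℤ) : ((T ^ n) x).1 i = x.1 (i + n) := by
  induction n generalizing i with
  | zero => simp
  | succ n ih =>
    rw [pow_succ', Homeomorph.mul_apply, T_val, ih]
    exact congrArg x.1 (by push_cast; ring)

theorem ab_inf : ¬ IsOfFinOrder (Y.g a * Y.g b) := by
  have h0 : Y.g a * Y.g b = toP (gen a * gen b) := (map_mul toP _ _).symm
  rw [h0, toP_inj.isOfFinOrder_iff, isOfFinOrder_iff_pow_eq_one]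
  rintro ⟨n, hn, h⟩
  obtain ⟨x, hx⟩ : ∃ x : subshift morse, phX x = true := by
    cases h : phX ⟨pt, pt_mem⟩
    · exact ⟨T ⟨pt, pt_mem⟩, by rw [phX_T, h]; rfl⟩
    · exact ⟨_, h⟩
  have h1 := ab_pow n x hx
  rw [h, Homeomorph.one_apply] at h1
  refine aper (2 * n) (by omega) x.1 x.2 (fun i => ?_)
  have := Tpow_val (2 * n) x i
  rw [← h1] at this
  exact this.symm

end Pool.Agent.TMGrowth
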