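import Pool.Agent.TMGrowth.Upper2
import Pool.Agent.H776R2.Om.Basic

/-!
The group `G_ω` for `ω = 010101...`: its action on infinite words is a self-similar system.
-/

set_option autoImplicit false

namespace Pool.Agent.TMGrowth.Om01

open Pool.Agent.Results.MP_03d093_al.SphereBall Pool.Agent.H776R2.Grig Pool.Agent.H776R2.Om
open Equiv

/-- infinite words -/
abbrev IW := ℕ → Bool

/-- add a letter in front of an infinite word -/
def cns (y : Bool) (w : IW) : IW := fun n => Nat.casesOn n y w

/-- remove the first letter -/
def tl (w : IW) : IW := fun n => w (n + 1)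

@[simp] theorem cns_zero (y : Bool) (w : IW) : cns y w 0 = y := rfl
@[simp] theorem cns_succ (y : Bool) (w : IW) (n : ℕ) : cns y w (n + 1) = w n := rfl
@[simp] theorem tl_cns (y : Bool) (w : IW) : tl (cns y w) = w := rfl
theorem cns_tl (w : IW) : cns (w 0) (tl w) = w := by
  funext n
  cases n <;> rfl

/-- `a` on infinite words -/
def aI (w : IW) : IW := cns (!(w 0)) (tl w)

/-- `x_ω` on infinite words: the letter after the first letter `0` is changed if the column
entry is `1` -/
def xI (x : V) : (ω : Om) → IW → IW := fun ω w n =>
  Nat.casesOn n (w 0) (fun k =>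
    if (∀ m < k, w m = true) ∧ w k = false ∧ col (ω k) x = true then !(w (k + 1)) else w (k + 1))

theorem xI_zero (x : V) (ω : Om) (w : IW) : xI x ω w 0 = w 0 := rfl
theorem xI_succ (x : V) (ω : Om) (w : IW) (k : ℕ) : xI x ω w (k + 1) =
    if (∀ m < k, w m = true) ∧ w k = false ∧ col (ω k) x = true then !(w (k + 1))
    else w (k + 1) := rfl

theorem xI_false (x : V) (ω : Om) (w : IW) :
    xI x ω (cns false w) = cns false (if col (ω 0) x then aI w else w) := by
  funext n
  cases n with
  | zero => rfl
  | succ k =>
    rw [xI_succ, cns_succ, cns_succ]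
    cases k with
    | zero =>
      by_cases h : col (ω 0) x = true
      · simp [h, aI]
      · simp [h]
    | succ k =>
      have h1 : ¬ (∀ m < k + 1, cns false w m = true) := by
        intro h
        have := h 0 (Nat.succ_pos k)
        simp at this
      rw [if_neg (fun h => h1 h.1)]
      by_cases h : col (ω 0) x = true
      · simp [h, aI, tl]
      · simp [h]

theorem xI_true (x : V) (ω : Om) (w : IW) :
    xI x ω (cns true w) = cns true (xI x (sh ω) w) := by
  funext n
  cases n with
  | zero => rfl
  | succ k =>
    rw [xI_succ, cns_succ, cns_succ]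
    cases k with
    | zero => simp [xI_zero]
    | succ k =>
      rw [xI_succ]
      have h1 : (∀ m < k + 1, cns true w m = true) ↔ ∀ m < k, w m = true := by
        constructor
        · intro h m hm
          exact h (m + 1) (by omega)
        · intro h m hm
          cases m with
          | zero => rfl
          | succ m => exact h m (by omega)
      exact if_congr (and_congr h1 Iff.rfl) rfl rfl

theorem aI_invol (w : IW) : aI (aI w) = w := by
  funext n
  cases n <;> simp [aI, tl]

theorem xI_invol_aux (x : V) (n : ℕ) : ∀ (ω : Om) (w : IW), xI x ω (xI x ω w) n = w n := by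
  induction n with
  | zero => intro ω w; rfl
  | succ n ih =>
    intro ω w
    rw [← cns_tl w]
    cases h : w 0 with
    | false =>
      rw [xI_false]
      by_cases hc : col (ω 0) x = true
      · rw [if_pos hc, xI_false, if_pos hc, aI_invol]
      · rw [if_neg hc, xI_false, if_neg hc]
    | true =>
      rw [xI_true, xI_true, cns_succ, cns_succ, ih]

theorem xI_mul_aux (n : ℕ) : ∀ (ω : Om) (w : IW), xI .b ω (xI .c ω w) n = xI .d ω w n := by
  induction n with
  | zero => intro ω w; rfl
  | succ n ih =>
    intro ω w
    rw [← cns_tl w]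
    cases h : w 0 with
    | false =>
      rw [xI_false, xI_false, xI_false]
      generalize ω 0 = i
      fin_cases i <;> simp [col, aI_invol]
    | true =>
      rw [xI_true, xI_true, xI_true, cns_succ, cns_succ, ih]

/-- the sequence `0, 1, 0, 1, ...` -/
def om01 : Om := fun n => if n % 2 = 0 then 0 else 1

theorem xI_sh_b : xI .b (sh om01) = xI .b om01 := by
  funext w n
  cases n with
  | zero => rfl
  | succ k =>
    rw [xI_succ, xI_succ]
    have h : col (sh om01 k) .b = col (om01 k) .b := by
      simp only [sh, om01]
      split_ifs <;> rfl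
    rw [h]

theorem xI_sh_c : xI .c (sh om01) = xI .d om01 := by
  funext w n
  cases n with
  | zero => rfl
  | succ k =>
    rw [xI_succ, xI_succ]
    have h : col (sh om01 k) .c = col (om01 k) .d := by
      simp only [sh, om01]
      rcases Nat.mod_two_eq_zero_or_one k with hk | hk
      · rw [if_neg (by omega), if_pos hk]; rfl
      · rw [if_pos (by omega), if_neg (by omega)]; rfl
    rw [h]

theorem xI_sh_d : xI .d (sh om01) = xI .c om01 := by
  funext w n
  cases n with
  | zero => rfl
  | succ k =>
    rw [xI_succ, xI_succ]
    have h : col (sh om01 k) .d = col (om01 k) .c := by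
      simp only [sh, om01]
      rcases Nat.mod_two_eq_zero_or_one k with hk | hk
      · rw [if_neg (by omega), if_pos hk]; rfl
      · rw [if_pos (by omega), if_neg (by omega)]; rfl
    rw [h]

/-- the generators on infinite words -/
def gI : Ltr → Perm IW
  | .a => Function.Involutive.toPerm aI aI_invol
  | .b => Function.Involutive.toPerm (xI .b om01) (fun w => funext fun n => xI_invol_aux .b n _ w)
  | .c => Function.Involutive.toPerm (xI .c om01) (fun w => funext fun n => xI_invol_aux .c n _ w)
  | .d => Function.Involutive.toPerm (xI .d om01) (fun w => funext fun n => xI_invol_aux .d n _ w)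

/-- the self-similar system -/
def sys : Sys IW where
  psi :=
    { toFun := fun z => cns (!z.1) z.2
      invFun := fun w => (!(w 0), tl w)
      left_inv := fun z => by simp
      right_inv := fun w => by
        simp only [Bool.not_not]
        exact cns_tl w }
  g := gI
  sq := by
    intro s
    ext1 w
    cases s
    · exact aI_invol w
    · exact funext fun n => xI_invol_aux .b n _ w
    · exact funext fun n => xI_invol_aux .c n _ w
    · exact funext fun n => xI_invol_aux .d n _ w
  bc := by
    ext1 w
    exact funext fun n => xI_mul_aux n om01 w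
  ha := by
    intro i x
    change aI (cns (!i) x) = cns (!(!i)) x
    simp [aI]
  hb0 := by
    intro x
    change xI .b om01 (cns true x) = cns true (xI .b om01 x)
    rw [xI_true, xI_sh_b]
  hb1 := by
    intro x
    change xI .b om01 (cns false x) = cns false (aI x)
    rw [xI_false]
    rfl
  hc0 := by
    intro x
    change xI .c om01 (cns true x) = cns true (xI .d om01 x)
    rw [xI_true, xI_sh_c]
  hc1 := by
    intro x
    change xI .c om01 (cns false x) = cns false (aI x)
    rw [xI_false]
    rfl
  hd0 := by
    intro x
    change xI .d om01 (cns true x) = cns true (xI .c om01 x)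
    rw [xI_true, xI_sh_d]
  hd1 := by
    intro x
    change xI .d om01 (cns false x) = cns false x
    rw [xI_false]
    rfl

/-! ### Comparison with finite words -/

/-- the first `n` letters -/
def pre : ℕ → IW → List Bool
  | 0, _ => []
  | n + 1, w => w 0 :: pre n (tl w)

theorem exists_pre (u : List Bool) : ∃ w : IW, pre u.length w = u := by
  induction u with
  | nil => exact ⟨fun _ => false, rfl⟩
  | cons y u ih =>
    obtain ⟨w, hw⟩ := ih
    refine ⟨cns y w, ?_⟩
    simp only [List.length_cons, pre, cns_zero, tl_cns, hw]

theorem pre_aI (n : ℕ) (w : IW) : aFun (pre n w) = pre n (aI w) := by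
  cases n with
  | zero => rfl
  | succ n => simp [pre, aFun, aI]

theorem pre_xI (x : V) (n : ℕ) : ∀ (ω : Om) (w : IW), xFun x ω (pre n w) = pre n (xI x ω w) := by
  induction n with
  | zero => intro ω w; rfl
  | succ n ih =>
    intro ω w
    obtain ⟨y, v, rfl⟩ : ∃ y v, w = cns y v := ⟨w 0, tl w, (cns_tl w).symm⟩
    cases y with
    | false =>
      rw [xI_false]
      simp only [pre, cns_zero, tl_cns, xFun]
      by_cases hc : col (ω 0) x = true
      · rw [if_pos hc, if_pos hc, pre_aI]
      · rw [if_neg hc, if_neg hc]
    | true =>
      rw [xI_true]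
      simp only [pre, cns_zero, tl_cns, xFun, ih]

/-- translation of letters -/
def tr : Lt → Ltr
  | .A => .a
  | .B => .b
  | .C => .c
  | .D => .d

theorem pre_gen (s : Lt) (n : ℕ) (w : IW) : gno om01 s (pre n w) = pre n (gI (tr s) w) := by
  cases s
  · exact pre_aI n w
  · exact pre_xI .b n om01 w
  · exact pre_xI .c n om01 w
  · exact pre_xI .d n om01 w

theorem pre_ev (l : List Lt) (n : ℕ) (w : IW) :
    evo om01 l (pre n w) = pre n (sys.ev (l.map tr) w) := by
  induction l with
  | nil => rfl
  | cons s l ih =>
    rw [evo_cons, Perm.mul_apply, ih, pre_gen]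
    rfl

theorem evo_eq_of_ev_eq {l l' : List Lt} (h : sys.ev (l.map tr) = sys.ev (l'.map tr)) :
    evo om01 l = evo om01 l' := by
  ext1 u
  obtain ⟨w, hw⟩ := exists_pre u
  rw [← hw, pre_ev, pre_ev, h]

theorem ballO_le (n : ℕ) : ballO om01 n ≤ (sys.S (2 * n)).card := by
  classical
  choose L hL using fun g : Gom om01 => exists_geodo om01 g
  have hmem : ∀ g : {g : Gom om01 // lenO om01 g ≤ n},
      sys.ev ((L g.1).map tr) ∈ sys.S (2 * n) := by
    intro g
    rw [sys.mem_S]
    refine ⟨_, ?_, rfl⟩
    have h1 := wt_le_length ((L g.1).map tr)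
    rw [List.length_map, (hL g.1).1] at h1
    have h2 := g.2
    omega
  have hinj : Function.Injective (fun g : {g : Gom om01 // lenO om01 g ≤ n} =>
      (⟨sys.ev ((L g.1).map tr), hmem g⟩ : {p // p ∈ sys.S (2 * n)})) := by
    intro g g' h
    have h1 := congrArg Subtype.val h
    have h2 := evo_eq_of_ev_eq h1
    apply Subtype.ext
    rw [← (hL g.1).2, ← (hL g'.1).2]
    exact Subtype.ext h2
  have := Nat.card_le_card_of_injective _ hinj
  have e : Nat.card {p // p ∈ sys.S (2 * n)} = (sys.S (2 * n)).card :=
    Nat.card_eq_finsetCard _
  rw [e] at this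
  exact this

end Pool.Agent.TMGrowth.Om01
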