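import Pool.Agent.TMGrowth.Defs

/-!
The Thue–Morse sequence and the points of the Thue–Morse subshift.
-/

namespace Pool.Agent.TMGrowth

/-- The Thue–Morse sequence. -/
def t (n : ℕ) : Bool := if n = 0 then false else xor (decide (n % 2 = 1)) (t (n / 2))
termination_by n
decreasing_by omega

theorem t_zero : t 0 = false := by rw [t]; simp

theorem t_even (n : ℕ) : t (2 * n) = t n := by
  rcases Nat.eq_zero_or_pos n with rfl | h
  · rfl
  · rw [t, if_neg (by omega)]
    have h1 : 2 * n % 2 = 0 := by omega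
    have h2 : 2 * n / 2 = n := by omega
    rw [h1, h2]
    simp

theorem t_odd (n : ℕ) : t (2 * n + 1) = !(t n) := by
  rw [t, if_neg (by omega)]
  have h1 : (2 * n + 1) % 2 = 1 := by omega
  have h2 : (2 * n + 1) / 2 = n := by omega
  rw [h1, h2]
  simp

theorem flat (g : ℕ → Bool) (m : ℕ) :
    (List.range m).flatMap (fun i => [g (2 * i), g (2 * i + 1)]) = (List.range (2 * m)).map g := by
  induction m with
  | zero => simp
  | succ m ih =>
    rw [List.range_succ, List.flatMap_append, ih, show 2 * (m + 1) = 2 * m + 1 + 1 by ring,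
      List.range_succ, List.range_succ]
    simp

theorem iter_eq (a : Bool) (n : ℕ) :
    (substWord morse)^[n] [a] = (List.range (2 ^ n)).map (fun i => xor a (t i)) := by
  induction n with
  | zero => simp [t_zero]
  | succ n ih =>
    rw [Function.iterate_succ_apply', ih, substWord, List.flatMap_map, pow_succ, mul_comm,
      ← flat]
    congr 1
    funext i
    rw [t_even, t_odd]
    cases a <;> cases t i <;> rfl

/-- Membership of a function in the Thue–Morse subshift. -/
theorem mem_iff (x : ℤ → Bool) : x ∈ subshift morse ↔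
    ∀ (i : ℤ) (L : ℕ), ∃ (a : Bool) (p : ℕ), ∀ k < L, x (i + (k : ℕ)) = xor a (t (p + k)) := by
  constructor
  · intro hx i L
    obtain ⟨a, n, _, h⟩ := hx i L
    rw [iter_eq, List.infix_iff_getElem?] at h
    obtain ⟨p, hp, h⟩ := h
    simp only [window, List.length_map, List.length_range] at hp h
    refine ⟨a, p, fun k hk => ?_⟩
    have := h k hk
    rw [List.getElem?_map, List.getElem?_range (by omega)] at this
    simp only [List.getElem_map, List.getElem_range, Option.map_some, Option.some.injEq] at this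
    rw [← this, add_comm k p]
  · intro hx i L
    obtain ⟨a, p, h⟩ := hx i L
    refine ⟨a, p + L + 1, by omega, ?_⟩
    have hlt : p + L < 2 ^ (p + L + 1) := by
      have := Nat.lt_two_pow_self (n := p + L + 1)
      omega
    rw [iter_eq, List.infix_iff_getElem?]
    simp only [window, List.length_map, List.length_range]
    refine ⟨p, by omega, fun k hk => ?_⟩
    rw [List.getElem?_map, List.getElem?_range (by omega)]
    simp only [List.getElem_map, List.getElem_range, Option.map_some, Option.some.injEq]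
    rw [h k hk, add_comm k p]

/-- equal neighbours of `t` start at an odd position. -/
theorem t_adj {q : ℕ} (h : t q = t (q + 1)) : q % 2 = 1 := by
  by_contra hq
  obtain ⟨m, rfl⟩ : ∃ m, q = 2 * m := ⟨q / 2, by omega⟩
  rw [t_even, t_odd] at h
  cases h' : t m <;> simp [h'] at h

theorem t_adj4 (j : ℕ) : t (4 * j + 1) = t (4 * j + 1 + 1) := by
  rw [show 4 * j + 1 + 1 = 2 * (2 * j + 1) by ring, t_even, t_odd,
    show 4 * j + 1 = 2 * (2 * j) + 1 by ring, t_odd, t_even]

theorem t_run (p : ℕ) : ∃ k < 4, t (p + k) = t (p + k + 1) := by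
  refine ⟨(5 - p % 4) % 4, by omega, ?_⟩
  obtain ⟨j, hj⟩ : ∃ j, p + (5 - p % 4) % 4 = 4 * j + 1 :=
    ⟨(p + (5 - p % 4) % 4) / 4, by omega⟩
  rw [hj]
  exact t_adj4 j

section points

variable {x : ℤ → Bool} (hx : x ∈ subshift morse)

include hx

/-- every five consecutive letters contain two equal neighbours -/
theorem run (i : ℤ) : ∃ k : ℕ, k < 4 ∧ x (i + k) = x (i + k + 1) := by
  obtain ⟨a, p, h⟩ := (mem_iff x).1 hx i 5
  obtain ⟨k, hk, e⟩ := t_run p
  refine ⟨k, hk, ?_⟩
  have h1 := h k (by omega)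
  have h2 := h (k + 1) (by omega)
  rw [h1, e]
  rw [add_assoc p k 1, ← h2]
  congr 1
  push_cast; ring

/-- equal neighbours occur at positions of the same parity -/
theorem parity {i j : ℤ} (hi : x i = x (i + 1)) (hj : x j = x (j + 1)) : i % 2 = j % 2 := by
  wlog hij : i ≤ j generalizing i j
  · exact (this hj hi (by omega)).symm
  obtain ⟨a, p, h⟩ := (mem_iff x).1 hx i ((j - i).toNat + 2)
  have h0 := h 0 (by omega)
  have h1 := h 1 (by omega)
  have h2 := h (j - i).toNat (by omega)
  have h3 := h ((j - i).toNat + 1) (by omega)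
  have e2 : i + ((j - i).toNat : ℤ) = j := by omega
  have e3 : i + (((j - i).toNat + 1 : ℕ) : ℤ) = j + 1 := by push_cast; omega
  simp only [Nat.cast_zero, add_zero, Nat.cast_one] at h0 h1
  rw [e2] at h2
  rw [e3] at h3
  have q1 : t p = t (p + 1) := by
    have : xor a (t p) = xor a (t (p + 1)) := by rw [← h0, ← h1, hi]
    exact Bool.xor_right_inj.1 this
  have q2 : t (p + (j - i).toNat) = t (p + (j - i).toNat + 1) := by
    have : xor a (t (p + (j - i).toNat)) = xor a (t (p + (j - i).toNat + 1)) := by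
      rw [add_assoc, ← h2, ← h3, hj]
    exact Bool.xor_right_inj.1 this
  have r1 := t_adj q1
  have r2 := t_adj q2
  omega

end points

/-- phase: `true` iff the origin is the second letter of a block -/
def ph (x : ℤ → Bool) : Bool := (x 0 == x 1) || (x 2 == x 3)

theorem ph_true {x : ℤ → Bool} (hx : x ∈ subshift morse) (h : ph x = true) {i : ℤ}
    (hi : i % 2 = 1) : x i ≠ x (i + 1) := by
  intro he
  simp only [ph, Bool.or_eq_true, beq_iff_eq] at h
  rcases h with h | h
  · have := parity hx he (j := 0) (by simpa using h)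
    omega
  · have := parity hx he (j := 2) (by simpa using h)
    omega

theorem ph_false {x : ℤ → Bool} (hx : x ∈ subshift morse) (h : ph x = false) {i : ℤ}
    (hi : i % 2 = 0) : x i ≠ x (i + 1) := by
  intro he
  simp only [ph, Bool.or_eq_false_iff, beq_eq_false_iff_ne] at h
  obtain ⟨k, hk, e⟩ := run hx 0
  have h1 := parity hx he e
  have : k = 0 ∨ k = 2 := by omega
  rcases this with rfl | rfl
  · exact h.1 (by simpa using e)
  · exact h.2 (by simpa using e)

theorem ph_eq_false {x : ℤ → Bool} (h : ∀ i : ℤ, i % 2 = 0 → x i ≠ x (i + 1)) :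
    ph x = false := by
  simp only [ph, Bool.or_eq_false_iff, beq_eq_false_iff_ne]
  exact ⟨by simpa using h 0 (by norm_num), by simpa using h 2 (by norm_num)⟩

/-- the substitution on two-sided sequences -/
def sg (y : ℤ → Bool) : ℤ → Bool := fun i => xor (decide (i % 2 = 1)) (y (i / 2))

theorem sg_even (y : ℤ → Bool) (i : ℤ) : sg y (2 * i) = y i := by
  simp only [sg]
  have h1 : ¬ (2 * i % 2 = 1) := by omega
  have h2 : 2 * i / 2 = i := by omega
  simp [h1, h2]

theorem sg_odd (y : ℤ → Bool) (i : ℤ) : sg y (2 * i + 1) = !(y i) := by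
  simp only [sg]
  have h1 : (2 * i + 1) % 2 = 1 := by omega
  have h2 : (2 * i + 1) / 2 = i := by omega
  simp [h1, h2]

theorem t_xor (p : ℕ) (r : ℕ) (hr : r < 2) (k : ℕ) :
    t (2 * p + r + k) = xor (decide ((r + k) % 2 = 1)) (t (p + (r + k) / 2)) := by
  rcases Nat.even_or_odd' (r + k) with ⟨m, hm | hm⟩
  · rw [show 2 * p + r + k = 2 * (p + m) by omega, t_even]
    have h1 : ¬ ((r + k) % 2 = 1) := by omega
    have h2 : (r + k) / 2 = m := by omega
    simp [h1, h2]
  · rw [show 2 * p + r + k = 2 * (p + m) + 1 by omega, t_odd]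
    have h1 : (r + k) % 2 = 1 := by omega
    have h2 : (r + k) / 2 = m := by omega
    simp [h1, h2]

theorem sg_mem {y : ℤ → Bool} (hy : y ∈ subshift morse) : sg y ∈ subshift morse := by
  rw [mem_iff] at hy ⊢
  intro i L
  obtain ⟨a, p, h⟩ := hy (i / 2) (L + 1)
  refine ⟨a, 2 * p + (i % 2).toNat, fun k hk => ?_⟩
  have hr : (i % 2).toNat < 2 := by omega
  rw [t_xor p _ hr k]
  have h1 := h (((i % 2).toNat + k) / 2) (by omega)
  have h2 : i / 2 + ((((i % 2).toNat + k) / 2 : ℕ) : ℤ) = (i + k) / 2 := by omega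
  rw [h2] at h1
  simp only [sg]
  rw [h1]
  have h3 : ((i + (k : ℤ)) % 2 = 1) ↔ (((i % 2).toNat + k) % 2 = 1) := by omega
  simp only [h3]
  cases a <;> cases t (p + ((i % 2).toNat + k) / 2) <;>
    cases decide (((i % 2).toNat + k) % 2 = 1) <;> rfl

theorem ph_sg (y : ℤ → Bool) : ph (sg y) = false := by
  apply ph_eq_false
  intro i hi
  obtain ⟨m, rfl⟩ : ∃ m, i = 2 * m := ⟨i / 2, by omega⟩
  rw [sg_even, sg_odd]
  cases y m <;> simp

theorem sg_inj {y z : ℤ → Bool} (h : sg y = sg z) : y = z := by
  funext i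
  rw [← sg_even y i, h, sg_even]

/-- desubstitution -/
def dg (x : ℤ → Bool) : ℤ → Bool := fun i => x (2 * i)

theorem sg_dg {x : ℤ → Bool} (hx : x ∈ subshift morse) (h : ph x = false) : sg (dg x) = x := by
  funext i
  rcases Int.even_or_odd' i with ⟨m, rfl | rfl⟩
  · rw [sg_even]; rfl
  · rw [sg_odd]
    have := ph_false hx h (i := 2 * m) (by omega)
    simp only [dg]
    cases h1 : x (2 * m) <;> cases h2 : x (2 * m + 1) <;> simp_all

theorem dg_mem {x : ℤ → Bool} (hx : x ∈ subshift morse) (h : ph x = false) :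
    dg x ∈ subshift morse := by
  have hx' := (mem_iff x).1 hx
  rw [mem_iff]
  intro i L
  obtain ⟨a, p, hp⟩ := hx' (2 * i) (2 * L + 5)
  obtain ⟨k, hk, e⟩ := t_run p
  have hodd := t_adj e
  have h1 := hp k (by omega)
  have h2 := hp (k + 1) (by omega)
  have h3 : x (2 * i + k) = x (2 * i + k + 1) := by
    rw [h1, e, add_assoc p k 1, ← h2]
    congr 1
    push_cast; ring
  have h4 : ¬ ((2 * i + (k : ℤ)) % 2 = 0) := fun h5 => ph_false hx h h5 h3
  obtain ⟨q, rfl⟩ : ∃ q, p = 2 * q := ⟨p / 2, by omega⟩
  refine ⟨a, q, fun m hm => ?_⟩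
  have h6 := hp (2 * m) (by omega)
  simp only [dg]
  rw [show 2 * (i + (m : ℤ)) = 2 * i + ((2 * m : ℕ) : ℤ) by push_cast; ring, h6,
    show 2 * q + 2 * m = 2 * (q + m) by ring, t_even]

/-- the phase changes under the shift -/
theorem ph_shift {x : ℤ → Bool} (hx : x ∈ subshift morse) (m : ℤ) (hm : m % 2 = 1) :
    ph (fun i => x (i + m)) = !(ph x) := by
  have hx' := subshift_shift morse m hx
  cases h : ph x
  · cases h' : ph (fun i => x (i + m))
    · exfalso
      obtain ⟨k, hk, e⟩ := run hx 0
      by_cases hk2 : k % 2 = 0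
      · exact ph_false hx h (i := 0 + k) (by omega) e
      · have := ph_false hx' h' (i := k - m) (by omega)
        apply this
        show x (k - m + m) = x (k - m + 1 + m)
        rw [show (k : ℤ) - m + m = 0 + k by ring, show (k : ℤ) - m + 1 + m = 0 + k + 1 by ring]
        exact e
    · rfl
  · cases h' : ph (fun i => x (i + m))
    · rfl
    · exfalso
      obtain ⟨k, hk, e⟩ := run hx 0
      by_cases hk2 : k % 2 = 1
      · exact ph_true hx h (i := 0 + k) (by omega) e
      · have := ph_true hx' h' (i := k - m) (by omega)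
        apply this
        show x (k - m + m) = x (k - m + 1 + m)
        rw [show (k : ℤ) - m + m = 0 + k by ring, show (k : ℤ) - m + 1 + m = 0 + k + 1 by ring]
        exact e

theorem aper : ∀ (m : ℕ), 0 < m → ∀ x ∈ subshift morse, ¬ (∀ i : ℤ, x (i + m) = x i) := by
  intro m
  induction m using Nat.strong_induction_on with
  | _ m ih =>
    intro hm x hx hper
    have key : ∀ z ∈ subshift morse, ph z = false → ¬ (∀ i : ℤ, z (i + m) = z i) := by
      intro z hz hph hperz
      rcases Nat.even_or_odd' m with ⟨m', hm' | hm'⟩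
      · refine ih m' (by omega) (by omega) (dg z) (dg_mem hz hph) ?_
        intro i
        simp only [dg]
        rw [← hperz (2 * i), hm']
        congr 1
        push_cast; ring
      · have h1 := ph_shift hz (m : ℤ) (by omega)
        have h2 : (fun i => z (i + (m : ℤ))) = z := funext hperz
        rw [h2, hph] at h1
        simp at h1
    cases h : ph x
    · exact key x hx h hper
    · have h1 := ph_shift hx 1 (by norm_num)
      rw [h] at h1
      refine key _ (subshift_shift morse 1 hx) h1 ?_
      intro i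
      show x (i + m + 1) = x (i + 1)
      rw [show i + (m : ℤ) + 1 = i + 1 + m by ring]
      exact hper (i + 1)

theorem t_pow (K : ℕ) : ∀ n < 2 ^ K, t (2 ^ K + n) = !(t n) := by
  induction K with
  | zero =>
    intro n hn
    have : n = 0 := by simpa using hn
    subst this
    have h := t_odd 0
    simpa using h
  | succ K ih =>
    intro n hn
    rw [pow_succ] at hn ⊢
    rcases Nat.even_or_odd' n with ⟨m, rfl | rfl⟩
    · rw [show 2 ^ K * 2 + 2 * m = 2 * (2 ^ K + m) by ring, t_even, t_even]
      exact ih m (by omega)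
    · rw [show 2 ^ K * 2 + (2 * m + 1) = 2 * (2 ^ K + m) + 1 by ring, t_odd, t_odd]
      rw [ih m (by omega)]

theorem t_rev (K : ℕ) : ∀ n < 2 ^ K, t (2 ^ K - 1 - n) = xor (decide (K % 2 = 1)) (t n) := by
  induction K with
  | zero =>
    intro n hn
    have : n = 0 := by simpa using hn
    subst this
    simp
  | succ K ih =>
    intro n hn
    rw [pow_succ] at hn ⊢
    have hdec : decide ((K + 1) % 2 = 1) = !(decide (K % 2 = 1)) := by
      rcases Nat.mod_two_eq_zero_or_one K with h | h
      · have : (K + 1) % 2 = 1 := by omega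
        simp [h, this]
      · have : (K + 1) % 2 = 0 := by omega
        simp [h, this]
    rw [hdec]
    rcases Nat.even_or_odd' n with ⟨m, rfl | rfl⟩
    · rw [show 2 ^ K * 2 - 1 - 2 * m = 2 * (2 ^ K - 1 - m) + 1 by omega, t_odd, t_even]
      rw [ih m (by omega)]
      cases decide (K % 2 = 1) <;> cases t m <;> rfl
    · rw [show 2 ^ K * 2 - 1 - (2 * m + 1) = 2 * (2 ^ K - 1 - m) by omega, t_even, t_odd]
      rw [ih m (by omega)]
      cases decide (K % 2 = 1) <;> cases t m <;> rfl

/-- a point of the subshift -/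
def pt : ℤ → Bool := fun i => if 0 ≤ i then t i.toNat else t (-1 - i).toNat

theorem pt_mem : pt ∈ subshift morse := by
  rw [mem_iff]
  intro i L
  -- choose an odd exponent
  set K : ℕ := 2 * (i.natAbs + L) + 1 with hK
  have hlt : i.natAbs + L < 2 ^ K := by
    have := Nat.lt_two_pow_self (n := K)
    omega
  have hone : 1 ≤ 2 ^ K := Nat.one_le_two_pow
  refine ⟨true, (2 ^ K + i).toNat, fun k hk => ?_⟩
  have hcast : ((2 ^ K : ℕ) : ℤ) = 2 ^ K := by push_cast; ring
  have hlt' : (i.natAbs : ℤ) + L < 2 ^ K := by rw [← hcast]; exact_mod_cast hlt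
  have hpos : ((2 ^ K + i).toNat : ℤ) = 2 ^ K + i := by omega
  by_cases h : 0 ≤ i + (k : ℤ)
  · simp only [pt, if_pos h]
    have e : (2 ^ K + i).toNat + k = 2 ^ K + (i + (k : ℤ)).toNat := by
      have : (((2 ^ K + i).toNat + k : ℕ) : ℤ) = ((2 ^ K + (i + (k : ℤ)).toNat : ℕ) : ℤ) := by
        push_cast
        omega
      exact_mod_cast this
    rw [e, t_pow K _ (by omega)]
    simp
  · simp only [pt, if_neg h]
    have e : (2 ^ K + i).toNat + k = 2 ^ K - 1 - (-1 - (i + (k : ℤ))).toNat := by
      have h1 : (-1 - (i + (k : ℤ))).toNat ≤ 2 ^ K - 1 := by omega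
      have : (((2 ^ K + i).toNat + k : ℕ) : ℤ) =
          ((2 ^ K - 1 - (-1 - (i + (k : ℤ))).toNat : ℕ) : ℤ) := by
        rw [Nat.cast_sub h1, Nat.cast_sub hone]
        push_cast
        omega
      exact_mod_cast this
    rw [e, t_rev K _ (by omega)]
    have : K % 2 = 1 := by omega
    simp [this]

end Pool.Agent.TMGrowth
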