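import Pool.Agent.TMGrowth.Abs

/-!
Subexponential growth of a self-similar system.
-/

namespace Pool.Agent.TMGrowth

open Equiv Ltr

/-- alternating words of length at most `L` with at most `k` letters `c`, `d`. -/
def W : Bool → ℕ → ℕ → Finset (List Ltr)
  | _, 0, _ => {[]}
  | true, L + 1, k => insert [] ((W false L k).image (fun l => a :: l))
  | false, L + 1, 0 => insert [] ((W true L 0).image (fun l => b :: l))
  | false, L + 1, k + 1 => insert [] (((W true L (k + 1)).image (fun l => b :: l)) ∪
      (((W true L k).image (fun l => c :: l)) ∪ ((W true L k).image (fun l => d :: l))))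

theorem mem_W : ∀ (L : ℕ) (i : Bool) (k : ℕ) (l : List Ltr), alt i l → l.length ≤ L →
    nk l ≤ k → l ∈ W i L k := by
  intro L
  induction L with
  | zero =>
    intro i k l _ h _
    have : l = [] := List.length_eq_zero_iff.mp (by omega)
    subst this
    cases i <;> simp [W]
  | succ L ih =>
    intro i k l hl h hk
    rcases l with _ | ⟨s, l⟩
    · cases i <;> cases k <;> simp [W]
    · simp only [List.length_cons] at h
      cases i with
      | true =>
        obtain ⟨rfl, h2⟩ := hl
        simp only [W, Finset.mem_insert, Finset.mem_image]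
        refine Or.inr ⟨l, ih false k l h2 (by omega) (by simp only [nk] at hk; omega), rfl⟩
      | false =>
        obtain ⟨h1, h2⟩ := hl
        cases k with
        | zero =>
          cases s
          · exact absurd rfl h1
          · simp only [W, Finset.mem_insert, Finset.mem_image]
            exact Or.inr ⟨l, ih true 0 l h2 (by omega) (by simp only [nk] at hk; omega), rfl⟩
          · simp [nk, k1] at hk
          · simp [nk, k1] at hk
        | succ k =>
          simp only [W, Finset.mem_insert, Finset.mem_union, Finset.mem_image]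
          right
          cases s
          · exact absurd rfl h1
          · exact Or.inl ⟨l, ih true (k + 1) l h2 (by omega)
              (by simp only [nk, k1] at hk; omega), rfl⟩
          · exact Or.inr (Or.inl ⟨l, ih true k l h2 (by omega)
              (by simp only [nk, k1] at hk; omega), rfl⟩)
          · exact Or.inr (Or.inr ⟨l, ih true k l h2 (by omega)
              (by simp only [nk, k1] at hk; omega), rfl⟩)

theorem card_W (x : ℝ) (hx0 : 0 < x) (hx1 : x ≤ 1) : ∀ (L : ℕ) (i : Bool) (k : ℕ),
    ((W i L k).card : ℝ) * x ^ k ≤ (L + 1) * (1 + 2 * x) ^ L := by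
  intro L
  have hone : ∀ n : ℕ, (1 : ℝ) ≤ (1 + 2 * x) ^ n := fun n => one_le_pow₀ (by linarith)
  have hxk : ∀ k : ℕ, x ^ k ≤ 1 := fun k => pow_le_one₀ hx0.le hx1
  have hxk0 : ∀ k : ℕ, 0 < x ^ k := fun k => pow_pos hx0 k
  induction L with
  | zero =>
    intro i k
    have : W i 0 k = {[]} := by cases i <;> simp [W]
    rw [this]
    simpa using hxk k
  | succ L ih =>
    have hmono : ((L : ℝ) + 1) * (1 + 2 * x) ^ L ≤ (L + 1) * (1 + 2 * x) ^ (L + 1) := by
      apply mul_le_mul_of_nonneg_left _ (by positivity)
      rw [pow_succ]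
      nlinarith [hone L]
    intro i k
    cases i with
    | true =>
      have h1 : (W true (L + 1) k).card ≤ 1 + (W false L k).card := by
        simp only [W]
        refine (Finset.card_insert_le _ _).trans ?_
        have := Finset.card_image_le (s := W false L k) (f := fun l => a :: l)
        omega
      have h2 : ((W true (L + 1) k).card : ℝ) ≤ 1 + (W false L k).card := by exact_mod_cast h1
      have h3 := ih false k
      push_cast
      nlinarith [mul_le_mul_of_nonneg_right h2 (hxk0 k).le, hone (L + 1), hxk k]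
    | false =>
      cases k with
      | zero =>
        have h1 : (W false (L + 1) 0).card ≤ 1 + (W true L 0).card := by
          simp only [W]
          refine (Finset.card_insert_le _ _).trans ?_
          have := Finset.card_image_le (s := W true L 0) (f := fun l => b :: l)
          omega
        have h2 : ((W false (L + 1) 0).card : ℝ) ≤ 1 + (W true L 0).card := by exact_mod_cast h1
        have h3 := ih true 0
        push_cast
        nlinarith [mul_le_mul_of_nonneg_right h2 (hxk0 0).le, hone (L + 1), hxk 0]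
      | succ k =>
        have h1 : (W false (L + 1) (k + 1)).card ≤
            1 + ((W true L (k + 1)).card + ((W true L k).card + (W true L k).card)) := by
          simp only [W]
          refine (Finset.card_insert_le _ _).trans ?_
          have e1 := Finset.card_image_le (s := W true L (k + 1)) (f := fun l => b :: l)
          have e2 := Finset.card_image_le (s := W true L k) (f := fun l => c :: l)
          have e3 := Finset.card_image_le (s := W true L k) (f := fun l => d :: l)
          have e4 := Finset.card_union_le ((W true L (k + 1)).image (fun l => b :: l))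
            (((W true L k).image (fun l => c :: l)) ∪ ((W true L k).image (fun l => d :: l)))
          have e5 := Finset.card_union_le ((W true L k).image (fun l => c :: l))
            ((W true L k).image (fun l => d :: l))
          omega
        have h2 : ((W false (L + 1) (k + 1)).card : ℝ) ≤
            1 + ((W true L (k + 1)).card + ((W true L k).card + (W true L k).card)) := by
          exact_mod_cast h1
        have h3 := ih true (k + 1)
        have h4 := ih true k
        have h5 : ((W true L k).card : ℝ) * x ^ (k + 1) ≤ x * ((L + 1) * (1 + 2 * x) ^ L) := by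
          rw [pow_succ]
          nlinarith
        have h6 := mul_le_mul_of_nonneg_right h2 (hxk0 (k + 1)).le
        have h7 : (1 + 2 * x) ^ (L + 1) = (1 + 2 * x) ^ L + 2 * x * (1 + 2 * x) ^ L := by ring
        have h8 := hone (L + 1)
        have h9 := hxk (k + 1)
        push_cast
        have h10 : ((L : ℝ) + 1 + 1) * (1 + 2 * x) ^ (L + 1) = (1 + 2 * x) ^ (L + 1) +
          ((L + 1) * (1 + 2 * x) ^ L + 2 * (x * ((L + 1) * (1 + 2 * x) ^ L))) := by
          rw [h7]; ring
        rw [h10]
        nlinarith

namespace Sys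

variable {X : Type} (Y : Sys X)

open Classical in
/-- words of weight at most `n` -/
noncomputable def wd (n : ℕ) : Finset (List Ltr) :=
  (List.finite_length_le Ltr n).toFinset.filter (fun l => wt l ≤ n)

theorem mem_wd {n : ℕ} {l : List Ltr} : l ∈ wd n ↔ wt l ≤ n := by
  classical
  simp only [wd, Finset.mem_filter, Set.Finite.mem_toFinset, Set.mem_ofPred_eq]
  have := length_le_wt l
  constructor
  · exact fun h => h.2
  · exact fun h => ⟨by omega, h⟩

open Classical in
/-- elements of weight at most `n` -/
noncomputable def S (n : ℕ) : Finset (Perm X) := (wd n).image Y.ev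

theorem mem_S {n : ℕ} {p : Perm X} : p ∈ Y.S n ↔ ∃ l, wt l ≤ n ∧ Y.ev l = p := by
  classical
  simp only [S, Finset.mem_image, mem_wd]

/-- recombination -/
def comb (z : Bool × (Perm X × Perm X)) : Perm X := (if z.1 then Y.g a else 1) * Y.E z.2

theorem main_ineq (n k : ℕ) : (Y.S n).card ≤ (W true n k).card + (W false n k).card +
    2 * ∑ i ∈ Finset.range (n + 2 - k + 1), (Y.S i).card * (Y.S (n + 2 - k - i)).card := by
  classical
  have hsub : Y.S n ⊆ ((W true n k).image Y.ev ∪ (W false n k).image Y.ev) ∪
      (Finset.range (n + 2 - k + 1)).biUnion (fun i =>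
        ((Finset.univ : Finset Bool) ×ˢ (Y.S i ×ˢ Y.S (n + 2 - k - i))).image Y.comb) := by
    intro p hp
    obtain ⟨l0, hl0, rfl⟩ := Y.mem_S.1 hp
    obtain ⟨l, ⟨i, hi⟩, hw, he⟩ := Y.exists_alt l0
    rw [← he]
    by_cases hk : nk l ≤ k
    · apply Finset.mem_union_left
      have hlen : l.length ≤ n := (length_le_wt l).trans (hw.trans hl0)
      cases i with
      | true =>
        exact Finset.mem_union_left _ (Finset.mem_image_of_mem _ (mem_W n true k l hi hlen hk))
      | false =>
        exact Finset.mem_union_right _ (Finset.mem_image_of_mem _ (mem_W n false k l hi hlen hk))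
    · apply Finset.mem_union_right
      have hg := gain hi
      have hw2 : wt l ≤ n := hw.trans hl0
      rw [Finset.mem_biUnion]
      refine ⟨wt (sec false l), Finset.mem_range.2 (by omega), ?_⟩
      rw [Finset.mem_image]
      refine ⟨(st false l, (Y.ev (sec false l), Y.ev (sec true l))), ?_, ?_⟩
      · simp only [Finset.mem_product, Finset.mem_univ, true_and]
        exact ⟨Y.mem_S.2 ⟨_, le_rfl, rfl⟩, Y.mem_S.2 ⟨_, by omega, rfl⟩⟩
      · exact (Y.ev_eq l).symm
  refine (Finset.card_le_card hsub).trans ?_
  refine (Finset.card_union_le _ _).trans ?_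
  refine Nat.add_le_add ?_ ?_
  · refine (Finset.card_union_le _ _).trans ?_
    exact Nat.add_le_add Finset.card_image_le Finset.card_image_le
  · refine Finset.card_biUnion_le.trans ?_
    rw [Finset.mul_sum]
    apply Finset.sum_le_sum
    intro i _
    refine Finset.card_image_le.trans ?_
    simp [Finset.card_product]

theorem lin_exp (η : ℝ) (hη : 0 < η) (n : ℕ) : (n : ℝ) + 1 ≤ (1 / η + 1) * Real.exp (η * n) := by
  have h1 := Real.add_one_le_exp (η * n)
  have h2 : (1 : ℝ) ≤ Real.exp (η * n) := Real.one_le_exp (by positivity)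
  have h3 : (n : ℝ) ≤ 1 / η * Real.exp (η * n) := by
    rw [div_mul_eq_mul_div, one_mul, le_div_iff₀ hη]
    linarith
  linarith

/-- exponential bound with rate `s` -/
def P (s : ℝ) : Prop := ∃ K : ℝ, 0 ≤ K ∧ ∀ n : ℕ, ((Y.S n).card : ℝ) ≤ K * Real.exp (s * n)

theorem P_mono {s t : ℝ} (h : s ≤ t) (hs : Y.P s) : Y.P t := by
  obtain ⟨K, hK, h1⟩ := hs
  refine ⟨K, hK, fun n => (h1 n).trans ?_⟩
  apply mul_le_mul_of_nonneg_left _ hK
  apply Real.exp_le_exp.2
  exact mul_le_mul_of_nonneg_right h (Nat.cast_nonneg n)

theorem P_base : Y.P 3 := by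
  classical
  refine ⟨2, by norm_num, fun n => ?_⟩
  have hsub : Y.S n ⊆ (W true n n).image Y.ev ∪ (W false n n).image Y.ev := by
    intro p hp
    obtain ⟨l0, hl0, rfl⟩ := Y.mem_S.1 hp
    obtain ⟨l, ⟨i, hi⟩, hw, he⟩ := Y.exists_alt l0
    rw [← he]
    have hlen : l.length ≤ n := (length_le_wt l).trans (hw.trans hl0)
    have hk : nk l ≤ n := by
      have : nk l ≤ l.length := by
        clear hw he hi hlen
        induction l with
        | nil => simp [nk]
        | cons s l ih => cases s <;> simp only [nk, k1, List.length_cons] <;> omega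
      omega
    cases i with
    | true =>
      exact Finset.mem_union_left _ (Finset.mem_image_of_mem _ (mem_W n true n l hi hlen hk))
    | false =>
      exact Finset.mem_union_right _ (Finset.mem_image_of_mem _ (mem_W n false n l hi hlen hk))
  have h1 : (Y.S n).card ≤ (W true n n).card + (W false n n).card := by
    refine (Finset.card_le_card hsub).trans ?_
    refine (Finset.card_union_le _ _).trans ?_
    exact Nat.add_le_add Finset.card_image_le Finset.card_image_le
  have h2 : ((Y.S n).card : ℝ) ≤ (W true n n).card + (W false n n).card := by exact_mod_cast h1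
  have h3 := card_W 1 one_pos le_rfl n true n
  have h4 := card_W 1 one_pos le_rfl n false n
  simp only [one_pow, mul_one] at h3 h4
  have h5 : (n : ℝ) + 1 ≤ Real.exp n := Real.add_one_le_exp n
  have h6 : ((1 : ℝ) + 2) ^ n ≤ Real.exp (2 * n) := by
    have : (1 : ℝ) + 2 ≤ Real.exp 2 := by
      have := Real.add_one_le_exp (2 : ℝ)
      linarith
    calc ((1 : ℝ) + 2) ^ n ≤ (Real.exp 2) ^ n := pow_le_pow_left₀ (by norm_num) this n
      _ = Real.exp (2 * n) := by rw [← Real.exp_nat_mul]; ring_nf
  have h7 : ((n : ℝ) + 1) * (1 + 2) ^ n ≤ Real.exp n * Real.exp (2 * n) :=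
    mul_le_mul h5 h6 (by positivity) (Real.exp_pos _).le
  rw [← Real.exp_add] at h7
  have h8 : (n : ℝ) + 2 * n = 3 * n := by ring
  rw [h8] at h7
  linarith

theorem P_step (ε : ℝ) (hε : 0 < ε) : ∃ r : ℝ, 0 < r ∧ r < 1 ∧
    ∀ s, ε ≤ s → Y.P s → Y.P (max ε (r * s)) := by
  -- choose x
  set x : ℝ := min 1 (ε / 8) with hx
  have hx0 : 0 < x := lt_min one_pos (by positivity)
  have hx1 : x ≤ 1 := min_le_left _ _
  have hx2 : 2 * x ≤ ε / 4 := by
    have := min_le_right 1 (ε / 8)
    linarith
  set Λ : ℝ := - Real.log x with hΛ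
  have hΛ0 : 0 ≤ Λ := by
    have := Real.log_nonpos hx0.le hx1
    linarith
  set θ : ℝ := min (1 / 2) (ε / (4 * (Λ + 1))) with hθ
  have hθ0 : 0 < θ := lt_min (by norm_num) (by positivity)
  have hθ1 : θ ≤ 1 / 2 := min_le_left _ _
  have hθ2 : θ * Λ ≤ ε / 4 := by
    have h1 : θ ≤ ε / (4 * (Λ + 1)) := min_le_right _ _
    have h2 : θ * (Λ + 1) ≤ ε / 4 := by
      calc θ * (Λ + 1) ≤ ε / (4 * (Λ + 1)) * (Λ + 1) :=
            mul_le_mul_of_nonneg_right h1 (by linarith)
        _ = ε / 4 := by field_simp
    nlinarith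
  refine ⟨1 - θ / 2, by linarith, by linarith, ?_⟩
  rintro s hs ⟨K, hK, hP⟩
  set m : ℝ := max ε ((1 - θ / 2) * s) with hm
  have hs0 : 0 < s := lt_of_lt_of_le hε hs
  set C : ℝ := 1 / (ε / 2) + 1 with hC
  have hC0 : 0 ≤ C := by positivity
  set C' : ℝ := 1 / (θ * s / 2) + 1 with hC'
  have hC'0 : 0 ≤ C' := by positivity
  refine ⟨2 * C / x + 2 * (3 * C') * (K * K * Real.exp (2 * s)), by positivity, fun n => ?_⟩
  set k : ℕ := ⌈θ * n⌉₊ with hk
  have hn0 : (0 : ℝ) ≤ n := Nat.cast_nonneg n
  have hk1 : θ * n ≤ k := Nat.le_ceil _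
  have hk2 : (k : ℝ) < θ * n + 1 := Nat.ceil_lt_add_one (by positivity)
  have hkn : k ≤ n + 2 := by
    have : (k : ℝ) < n + 2 := by nlinarith
    exact_mod_cast this.le
  have hmain := Y.main_ineq n k
  have hmainR : ((Y.S n).card : ℝ) ≤ (W true n k).card + (W false n k).card +
    2 * ∑ i ∈ Finset.range (n + 2 - k + 1), ((Y.S i).card : ℝ) * (Y.S (n + 2 - k - i)).card := by
    exact_mod_cast hmain
  -- class B
  have hxk : 0 < x ^ k := pow_pos hx0 k
  have hB : ∀ i, ((W i n k).card : ℝ) ≤ C / x * Real.exp (m * n) := by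
    intro i
    have h1 := card_W x hx0 hx1 n i k
    have h2 : (1 + 2 * x) ^ n ≤ Real.exp (ε / 4 * n) := by
      have : 1 + 2 * x ≤ Real.exp (ε / 4) := by
        have h := Real.add_one_le_exp (2 * x)
        have h' := Real.exp_le_exp.2 hx2
        linarith
      calc (1 + 2 * x) ^ n ≤ (Real.exp (ε / 4)) ^ n := pow_le_pow_left₀ (by linarith) this n
        _ = Real.exp (ε / 4 * n) := by rw [← Real.exp_nat_mul]; ring_nf
    have h3 : (1 : ℝ) ≤ x ^ k * (1 / x * Real.exp (ε / 4 * n)) := by
      have e1 : x ^ k = Real.exp (-(Λ * k)) := by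
        rw [hΛ, neg_mul, neg_neg, mul_comm, Real.exp_nat_mul, Real.exp_log hx0]
      have e2 : 1 / x = Real.exp Λ := by
        rw [hΛ, Real.exp_neg, Real.exp_log hx0, one_div]
      rw [e1, e2, ← Real.exp_add, ← Real.exp_add]
      apply Real.one_le_exp
      nlinarith
    have h4 := lin_exp (ε / 2) (by positivity) n
    have h5 : ((W i n k).card : ℝ) ≤ ((n + 1) * (1 + 2 * x) ^ n) *
        (1 / x * Real.exp (ε / 4 * n)) := by
      have hnn : (0 : ℝ) ≤ 1 / x * Real.exp (ε / 4 * n) := by positivity
      calc ((W i n k).card : ℝ) = (W i n k).card * 1 := by ring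
        _ ≤ (W i n k).card * (x ^ k * (1 / x * Real.exp (ε / 4 * n))) :=
            mul_le_mul_of_nonneg_left h3 (Nat.cast_nonneg _)
        _ = ((W i n k).card * x ^ k) * (1 / x * Real.exp (ε / 4 * n)) := by ring
        _ ≤ _ := mul_le_mul_of_nonneg_right h1 hnn
    have h6 : ((n : ℝ) + 1) * (1 + 2 * x) ^ n ≤
        (C * Real.exp (ε / 2 * n)) * Real.exp (ε / 4 * n) :=
      mul_le_mul h4 h2 (by positivity) (by positivity)
    have h7 : ((W i n k).card : ℝ) ≤ ((C * Real.exp (ε / 2 * n)) * Real.exp (ε / 4 * n)) *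
        (1 / x * Real.exp (ε / 4 * n)) :=
      h5.trans (mul_le_mul_of_nonneg_right h6 (by positivity))
    refine h7.trans ?_
    have h8 : ((C * Real.exp (ε / 2 * n)) * Real.exp (ε / 4 * n)) *
        (1 / x * Real.exp (ε / 4 * n)) = C / x * Real.exp (ε * n) := by
      have : Real.exp (ε * n) =
          Real.exp (ε / 2 * n) * Real.exp (ε / 4 * n) * Real.exp (ε / 4 * n) := by
        rw [← Real.exp_add, ← Real.exp_add]; ring_nf
      rw [this]; ring
    rw [h8]
    apply mul_le_mul_of_nonneg_left _ (by positivity)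
    apply Real.exp_le_exp.2
    exact mul_le_mul_of_nonneg_right (le_max_left _ _) hn0
  -- class A
  have hMr : ((n + 2 - k : ℕ) : ℝ) = n + 2 - k := by
    rw [Nat.cast_sub hkn]; push_cast; ring
  have hA : 2 * ∑ i ∈ Finset.range (n + 2 - k + 1),
      ((Y.S i).card : ℝ) * (Y.S (n + 2 - k - i)).card ≤
      2 * (3 * C') * (K * K * Real.exp (2 * s)) * Real.exp (m * n) := by
    have h1 : ∑ i ∈ Finset.range (n + 2 - k + 1),
        ((Y.S i).card : ℝ) * (Y.S (n + 2 - k - i)).card ≤
        ∑ i ∈ Finset.range (n + 2 - k + 1), K * K * Real.exp (s * (n + 2 - k : ℕ)) := by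
      apply Finset.sum_le_sum
      intro i hi
      have hi' : i ≤ n + 2 - k := by
        have := Finset.mem_range.1 hi
        omega
      have e1 := hP i
      have e2 := hP (n + 2 - k - i)
      have e3 : ((n + 2 - k - i : ℕ) : ℝ) = (n + 2 - k : ℕ) - i := by
        rw [Nat.cast_sub hi']
      calc ((Y.S i).card : ℝ) * (Y.S (n + 2 - k - i)).card
          ≤ (K * Real.exp (s * i)) * (K * Real.exp (s * (n + 2 - k - i : ℕ))) :=
            mul_le_mul e1 e2 (Nat.cast_nonneg _) (by positivity)
        _ = K * K * (Real.exp (s * i) * Real.exp (s * (n + 2 - k - i : ℕ))) := by ring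
        _ = K * K * Real.exp (s * (n + 2 - k : ℕ)) := by
            rw [← Real.exp_add, e3]; ring_nf
    rw [Finset.sum_const, Finset.card_range, nsmul_eq_mul] at h1
    have h2 : ((n + 2 - k + 1 : ℕ) : ℝ) ≤ 3 * (C' * Real.exp (θ * s / 2 * n)) := by
      have h3 : (n : ℝ) + 1 ≤ C' * Real.exp (θ * s / 2 * n) :=
        lin_exp (θ * s / 2) (by positivity) n
      have h4 : (0 : ℝ) ≤ k := Nat.cast_nonneg k
      rw [Nat.cast_add, hMr, Nat.cast_one]
      linarith
    have h3 : Real.exp (s * (n + 2 - k : ℕ)) ≤
        Real.exp (2 * s) * Real.exp (s * (1 - θ) * n) := by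
      rw [← Real.exp_add]
      apply Real.exp_le_exp.2
      rw [hMr]
      nlinarith
    have h4 : (K * K * Real.exp (s * (n + 2 - k : ℕ))) ≤
        K * K * (Real.exp (2 * s) * Real.exp (s * (1 - θ) * n)) :=
      mul_le_mul_of_nonneg_left h3 (by positivity)
    have h5 : ((n + 2 - k + 1 : ℕ) : ℝ) * (K * K * Real.exp (s * (n + 2 - k : ℕ))) ≤
        (3 * (C' * Real.exp (θ * s / 2 * n))) *
          (K * K * (Real.exp (2 * s) * Real.exp (s * (1 - θ) * n))) :=
      mul_le_mul h2 h4 (by positivity) (by positivity)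
    have h6 : (3 * (C' * Real.exp (θ * s / 2 * n))) *
          (K * K * (Real.exp (2 * s) * Real.exp (s * (1 - θ) * n))) =
        (3 * C') * (K * K * Real.exp (2 * s)) * Real.exp ((1 - θ / 2) * s * n) := by
      have : Real.exp ((1 - θ / 2) * s * n) =
          Real.exp (θ * s / 2 * n) * Real.exp (s * (1 - θ) * n) := by
        rw [← Real.exp_add]; ring_nf
      rw [this]; ring
    have h7 : Real.exp ((1 - θ / 2) * s * n) ≤ Real.exp (m * n) := by
      apply Real.exp_le_exp.2
      exact mul_le_mul_of_nonneg_right (le_max_right _ _) hn0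
    have h8 : (3 * C') * (K * K * Real.exp (2 * s)) * Real.exp ((1 - θ / 2) * s * n) ≤
        (3 * C') * (K * K * Real.exp (2 * s)) * Real.exp (m * n) :=
      mul_le_mul_of_nonneg_left h7 (by positivity)
    calc _ ≤ 2 * ((3 * C') * (K * K * Real.exp (2 * s)) * Real.exp (m * n)) := by
          have := (h1.trans (h5.trans (h6.le.trans h8)))
          linarith
      _ = _ := by ring
  have hB1 := hB true
  have hB2 := hB false
  calc ((Y.S n).card : ℝ) ≤ C / x * Real.exp (m * n) + C / x * Real.exp (m * n) +
        2 * (3 * C') * (K * K * Real.exp (2 * s)) * Real.exp (m * n) := by linarith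
    _ = (2 * C / x + 2 * (3 * C') * (K * K * Real.exp (2 * s))) * Real.exp (m * n) := by ring

theorem upper (ε : ℝ) (hε : 0 < ε) : Y.P ε := by
  obtain ⟨r, hr0, hr1, hstep⟩ := Y.P_step ε hε
  have key : ∀ j : ℕ, Y.P (max ε (3 * r ^ j)) := by
    intro j
    induction j with
    | zero => exact Y.P_mono (by simp) Y.P_base
    | succ j ih =>
      refine Y.P_mono ?_ (hstep _ (le_max_left _ _) ih)
      apply max_le (le_max_left _ _)
      rw [mul_max_of_nonneg _ _ hr0.le]
      apply max_le
      · exact le_max_of_le_left (by nlinarith)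
      · apply le_max_of_le_right
        rw [pow_succ]
        apply le_of_eq; ring
  obtain ⟨j, hj⟩ := exists_pow_lt_of_lt_one (show 0 < ε / 3 by positivity) hr1
  have := key j
  rwa [max_eq_left (by linarith)] at this

end Sys

end Pool.Agent.TMGrowth
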