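import Pool.Agent.TMGrowth.Upper

/-!
Explicit subexponential growth of a self-similar system: `exp (C n log log n / log n)`.
-/

namespace Pool.Agent.TMGrowth

open Equiv Ltr

theorem classB (m : ℝ) (hm : 3 ≤ m) (t : ℝ) (ht : 7 * Real.log m / m ≤ t) (n k : ℕ)
    (hk2 : (k : ℝ) ≤ 4 / m * n + 1) (i : Bool) :
    ((W i n k).card : ℝ) ≤ (m + 1) * m * Real.exp (t * n) := by
  have hm0 : 0 < m := by linarith
  have hn0 : (0 : ℝ) ≤ n := Nat.cast_nonneg n
  have hℓ1 : 1 ≤ Real.log m := by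
    rw [Real.le_log_iff_exp_le hm0]
    exact (Real.exp_one_lt_three.le).trans hm
  have hx0 : 0 < 1 / m := by positivity
  have hx1 : 1 / m ≤ 1 := by rw [div_le_one hm0]; linarith
  have h1 := card_W (1 / m) hx0 hx1 n i k
  have h2 : (1 + 2 * (1 / m)) ^ n ≤ Real.exp (2 / m * n) := by
    have : 1 + 2 * (1 / m) ≤ Real.exp (2 / m) := by
      have h := Real.add_one_le_exp (2 / m)
      have e : 2 * (1 / m) = 2 / m := by ring
      rw [e]; linarith
    calc (1 + 2 * (1 / m)) ^ n ≤ (Real.exp (2 / m)) ^ n :=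
          pow_le_pow_left₀ (by positivity) this n
      _ = Real.exp (2 / m * n) := by rw [← Real.exp_nat_mul]; ring_nf
  have h3 : m ^ k ≤ m * Real.exp (4 / m * Real.log m * n) := by
    have e1 : m ^ k = Real.exp (Real.log m * k) := by
      rw [mul_comm, Real.exp_nat_mul, Real.exp_log hm0]
    have e2 : m * Real.exp (4 / m * Real.log m * n) =
        Real.exp (Real.log m + 4 / m * Real.log m * n) := by
      rw [Real.exp_add, Real.exp_log hm0]
    rw [e1, e2]
    apply Real.exp_le_exp.2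
    have := mul_le_mul_of_nonneg_left hk2 (by linarith : (0 : ℝ) ≤ Real.log m)
    linarith
  have h4 := Sys.lin_exp (1 / m) hx0 n
  rw [one_div_one_div] at h4
  have h5 : ((W i n k).card : ℝ) ≤ ((n + 1) * (1 + 2 * (1 / m)) ^ n) * m ^ k := by
    have e : (1 / m) ^ k * m ^ k = 1 := by
      rw [← mul_pow, one_div_mul_cancel hm0.ne', one_pow]
    calc ((W i n k).card : ℝ) = ((W i n k).card * (1 / m) ^ k) * m ^ k := by
          rw [mul_assoc, e, mul_one]
      _ ≤ _ := mul_le_mul_of_nonneg_right h1 (by positivity)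
  have h6 : ((n : ℝ) + 1) * (1 + 2 * (1 / m)) ^ n ≤
      ((m + 1) * Real.exp (1 / m * n)) * Real.exp (2 / m * n) :=
    mul_le_mul h4 h2 (by positivity) (by positivity)
  have h7 : ((W i n k).card : ℝ) ≤ (((m + 1) * Real.exp (1 / m * n)) * Real.exp (2 / m * n)) *
      (m * Real.exp (4 / m * Real.log m * n)) :=
    h5.trans (mul_le_mul h6 h3 (by positivity) (by positivity))
  refine h7.trans ?_
  have h8 : (((m + 1) * Real.exp (1 / m * n)) * Real.exp (2 / m * n)) *
      (m * Real.exp (4 / m * Real.log m * n)) =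
      (m + 1) * m * Real.exp ((1 / m + 2 / m + 4 / m * Real.log m) * n) := by
    have : Real.exp ((1 / m + 2 / m + 4 / m * Real.log m) * n) =
        Real.exp (1 / m * n) * Real.exp (2 / m * n) * Real.exp (4 / m * Real.log m * n) := by
      rw [← Real.exp_add, ← Real.exp_add]; ring_nf
    rw [this]; ring
  rw [h8]
  apply mul_le_mul_of_nonneg_left _ (by positivity)
  apply Real.exp_le_exp.2
  apply mul_le_mul_of_nonneg_right _ hn0
  refine le_trans ?_ ht
  have : 1 / m + 2 / m + 4 / m * Real.log m = (3 + 4 * Real.log m) / m := by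
    field_simp; ring
  rw [this]
  apply div_le_div_of_nonneg_right _ hm0.le
  linarith

namespace Sys

variable {X : Type} (Y : Sys X)

theorem classA (m : ℝ) (hm : 3 ≤ m) (a s t : ℝ) (hs0 : 0 < s) (hs14 : s ≤ 14)
    (ht0 : 0 ≤ t) (hη1 : 1 / m ^ 2 ≤ t - s * (1 - 4 / m))
    (h : ∀ n : ℕ, ((Y.S n).card : ℝ) ≤ Real.exp (a + s * n)) (n k : ℕ)
    (hk1 : 4 / m * n ≤ (k : ℝ)) :
    2 * ∑ i ∈ Finset.range (n + 2 - k + 1),
      ((Y.S i).card : ℝ) * (Y.S (n + 2 - k - i)).card ≤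
      6 * (m ^ 2 + 1) * (Real.exp (2 * a + 28) * Real.exp (t * n)) := by
  have hm0 : 0 < m := by linarith
  have hn0 : (0 : ℝ) ≤ n := Nat.cast_nonneg n
  obtain ⟨η, hη⟩ : ∃ η : ℝ, η = t - s * (1 - 4 / m) := ⟨_, rfl⟩
  rw [← hη] at hη1
  have hm2 : 0 < m ^ 2 := by positivity
  have hη0 : 0 < η := lt_of_lt_of_le (by positivity) hη1
  have hηi : 1 / η ≤ m ^ 2 := by
    rw [div_le_iff₀ hη0]
    have h2 : m ^ 2 * (1 / m ^ 2) = 1 := mul_one_div_cancel hm2.ne'
    have h3 := mul_le_mul_of_nonneg_left hη1 hm2.le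
    linarith
  have hMn : ((n + 2 - k : ℕ) : ℝ) ≤ n + 2 := by
    have : n + 2 - k ≤ n + 2 := Nat.sub_le _ _
    exact_mod_cast this
  have h1 : ∑ i ∈ Finset.range (n + 2 - k + 1),
      ((Y.S i).card : ℝ) * (Y.S (n + 2 - k - i)).card ≤
      ∑ i ∈ Finset.range (n + 2 - k + 1), Real.exp (2 * a + s * (n + 2 - k : ℕ)) := by
    apply Finset.sum_le_sum
    intro i hi
    have hi' : i ≤ n + 2 - k := by
      have := Finset.mem_range.1 hi
      omega
    have e1 := h i
    have e2 := h (n + 2 - k - i)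
    have e3 : ((n + 2 - k - i : ℕ) : ℝ) = (n + 2 - k : ℕ) - i := by
      rw [Nat.cast_sub hi']
    calc ((Y.S i).card : ℝ) * (Y.S (n + 2 - k - i)).card
        ≤ Real.exp (a + s * i) * Real.exp (a + s * (n + 2 - k - i : ℕ)) :=
          mul_le_mul e1 e2 (Nat.cast_nonneg _) (Real.exp_pos _).le
      _ = Real.exp (2 * a + s * (n + 2 - k : ℕ)) := by
          rw [← Real.exp_add, e3]; ring_nf
  rw [Finset.sum_const, Finset.card_range, nsmul_eq_mul] at h1
  rcases le_or_gt k (n + 2) with hkn | hkn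
  · have hM : ((n + 2 - k : ℕ) : ℝ) ≤ n + 2 - 4 / m * n := by
      rw [Nat.cast_sub hkn]; push_cast; linarith
    have h4 : (n : ℝ) + 1 ≤ (m ^ 2 + 1) * Real.exp (η * n) := by
      refine (lin_exp η hη0 n).trans ?_
      apply mul_le_mul_of_nonneg_right _ (Real.exp_pos _).le
      linarith
    have h2 : ((n + 2 - k + 1 : ℕ) : ℝ) ≤ 3 * ((m ^ 2 + 1) * Real.exp (η * n)) := by
      rw [Nat.cast_add, Nat.cast_one]
      linarith
    have h9 : Real.exp (2 * a + s * (n + 2 - k : ℕ)) ≤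
        Real.exp (2 * a + 28) * Real.exp (s * (1 - 4 / m) * n) := by
      rw [← Real.exp_add]
      apply Real.exp_le_exp.2
      have h10 : s * ((n + 2 - k : ℕ) : ℝ) ≤ s * (n + 2 - 4 / m * n) :=
        mul_le_mul_of_nonneg_left hM hs0.le
      have h11 : s * (n + 2 - 4 / m * n) = s * (1 - 4 / m) * n + 2 * s := by ring
      linarith
    have h5 : ((n + 2 - k + 1 : ℕ) : ℝ) * Real.exp (2 * a + s * (n + 2 - k : ℕ)) ≤
        (3 * ((m ^ 2 + 1) * Real.exp (η * n))) *
          (Real.exp (2 * a + 28) * Real.exp (s * (1 - 4 / m) * n)) :=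
      mul_le_mul h2 h9 (Real.exp_pos _).le (by positivity)
    have h6 : 2 * ((3 * ((m ^ 2 + 1) * Real.exp (η * n))) *
          (Real.exp (2 * a + 28) * Real.exp (s * (1 - 4 / m) * n))) =
        6 * (m ^ 2 + 1) * (Real.exp (2 * a + 28) * Real.exp (t * n)) := by
      have : Real.exp (t * n) = Real.exp (η * n) * Real.exp (s * (1 - 4 / m) * n) := by
        rw [← Real.exp_add, hη]; ring_nf
      rw [this]; ring
    rw [← h6]
    exact mul_le_mul_of_nonneg_left (h1.trans h5) (by norm_num)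
  · have h' : n + 2 - k = 0 := by omega
    rw [h'] at h1 ⊢
    simp only [Nat.cast_zero, mul_zero, add_zero, zero_add, Nat.cast_one, one_mul] at h1
    have h9 : (1 : ℝ) ≤ Real.exp (t * n) := Real.one_le_exp (mul_nonneg ht0 hn0)
    have h7 : Real.exp (2 * a) ≤ Real.exp (2 * a + 28) := Real.exp_le_exp.2 (by linarith)
    have h10 : Real.exp (2 * a) ≤ Real.exp (2 * a + 28) * Real.exp (t * n) := by
      calc Real.exp (2 * a) = Real.exp (2 * a) * 1 := (mul_one _).symm
        _ ≤ _ := mul_le_mul h7 h9 zero_le_one (Real.exp_pos _).le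
    have h11 : (0 : ℝ) ≤ Real.exp (2 * a + 28) * Real.exp (t * n) := by positivity
    have h13 : (2 : ℝ) ≤ 6 * (m ^ 2 + 1) := by linarith
    refine mul_le_mul h13 (le_trans ?_ h10) ?_ (by positivity)
    · simpa using h1
    · exact Finset.sum_nonneg (fun _ _ => by positivity)

theorem arith (m S B1 B2 A E1 E2 : ℝ) (hm : 3 ≤ m) (hE1 : 1 ≤ E1) (hE2 : 0 < E2)
    (h : S ≤ B1 + B2 + A) (h1 : B1 ≤ (m + 1) * m * E2) (h2 : B2 ≤ (m + 1) * m * E2)
    (h3 : A ≤ 6 * (m ^ 2 + 1) * (E1 * E2)) : S ≤ 10 * m ^ 2 * (E1 * E2) := by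
  have h4 : E2 ≤ E1 * E2 := by
    calc E2 = 1 * E2 := (one_mul _).symm
      _ ≤ E1 * E2 := mul_le_mul_of_nonneg_right hE1 hE2.le
  have hpos : 0 < E1 * E2 := lt_of_lt_of_le hE2 h4
  have h5 : (m + 1) * m * E2 ≤ (m + 1) * m * (E1 * E2) :=
    mul_le_mul_of_nonneg_left h4 (by positivity)
  have hsum : 2 * ((m + 1) * m) + 6 * (m ^ 2 + 1) ≤ 10 * m ^ 2 := by nlinarith
  have e1 := mul_le_mul_of_nonneg_right hsum hpos.le
  have e4 : (2 * ((m + 1) * m) + 6 * (m ^ 2 + 1)) * (E1 * E2) =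
      ((m + 1) * m) * (E1 * E2) + ((m + 1) * m) * (E1 * E2) + 6 * (m ^ 2 + 1) * (E1 * E2) := by
    ring
  rw [e4] at e1
  linarith

theorem rate (m s t : ℝ) (hm : 3 ≤ m) (hs : s = 14 * Real.log m / m)
    (ht : t = 14 * Real.log (m + 1) / (m + 1)) :
    0 < s ∧ s ≤ 14 ∧ 0 ≤ t ∧ 7 * Real.log m / m ≤ t ∧ 1 / m ^ 2 ≤ t - s * (1 - 4 / m) := by
  have hm0 : 0 < m := by linarith
  have hℓ1 : 1 ≤ Real.log m := by
    rw [Real.le_log_iff_exp_le hm0]
    exact (Real.exp_one_lt_three.le).trans hm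
  have hℓm : Real.log m ≤ m - 1 := Real.log_le_sub_one_of_pos hm0
  have hs0 : 0 < s := by rw [hs]; positivity
  have hs14 : s ≤ 14 := by
    rw [hs, div_le_iff₀ hm0]; linarith
  have ht0 : 0 ≤ t := by
    rw [ht]
    exact div_nonneg (mul_nonneg (by norm_num) (Real.log_nonneg (by linarith))) (by linarith)
  have ht1 : s * (1 - 1 / m) ≤ t := by
    have h1 : Real.log m ≤ Real.log (m + 1) := Real.log_le_log hm0 (by linarith)
    have h2 : s * (1 - 1 / m) ≤ 14 * Real.log m / (m + 1) := by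
      rw [hs, le_div_iff₀ (by linarith)]
      have : 14 * Real.log m / m * (1 - 1 / m) * (m + 1) =
          14 * Real.log m * ((m ^ 2 - 1) / m ^ 2) := by
        field_simp; ring
      rw [this]
      have h3 : (m ^ 2 - 1) / m ^ 2 ≤ 1 := by
        rw [div_le_one (by positivity)]; linarith
      have h4 : 0 ≤ 14 * Real.log m := by linarith
      calc 14 * Real.log m * ((m ^ 2 - 1) / m ^ 2) ≤ 14 * Real.log m * 1 :=
            mul_le_mul_of_nonneg_left h3 h4
        _ = 14 * Real.log m := mul_one _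
    refine h2.trans ?_
    rw [ht]
    apply div_le_div_of_nonneg_right _ (by linarith)
    linarith
  refine ⟨hs0, hs14, ht0, ?_, ?_⟩
  · refine le_trans ?_ ht1
    rw [hs]
    have h11 : (1 : ℝ) / m ≤ 1 / 2 := by
      apply one_div_le_one_div_of_le <;> linarith
    have h12 : 7 * Real.log m / m = 14 * Real.log m / m * (1 / 2) := by ring
    rw [h12]
    apply mul_le_mul_of_nonneg_left _ (by positivity)
    linarith
  · have h1 : s * (3 / m) ≤ t - s * (1 - 4 / m) := by
      have e : s * (1 - 1 / m) - s * (1 - 4 / m) = s * (3 / m) := by ring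
      linarith
    refine le_trans ?_ h1
    rw [hs]
    have : 14 * Real.log m / m * (3 / m) = 42 * Real.log m * (1 / m ^ 2) := by
      field_simp; ring
    rw [this]
    have h2 : 0 < 1 / m ^ 2 := by positivity
    calc 1 / m ^ 2 = 1 * (1 / m ^ 2) := (one_mul _).symm
      _ ≤ 42 * Real.log m * (1 / m ^ 2) := mul_le_mul_of_nonneg_right (by linarith) h2.le

theorem step_explicit (m : ℝ) (hm : 3 ≤ m) (a s t : ℝ) (ha : 0 ≤ a)
    (hs : s = 14 * Real.log m / m) (ht : t = 14 * Real.log (m + 1) / (m + 1))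
    (h : ∀ n : ℕ, ((Y.S n).card : ℝ) ≤ Real.exp (a + s * n)) (n : ℕ) :
    ((Y.S n).card : ℝ) ≤ 10 * m ^ 2 * (Real.exp (2 * a + 28) * Real.exp (t * n)) := by
  obtain ⟨hs0, hs14, ht0, ht7, hη⟩ := rate m s t hm hs ht
  have hm0 : 0 < m := by linarith
  obtain ⟨k, hk⟩ : ∃ k : ℕ, k = ⌈4 / m * n⌉₊ := ⟨_, rfl⟩
  have hk1 : 4 / m * n ≤ (k : ℝ) := by rw [hk]; exact Nat.le_ceil _
  have hk2 : (k : ℝ) ≤ 4 / m * n + 1 := by
    rw [hk]; exact (Nat.ceil_lt_add_one (by positivity)).le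
  have hmainR : ((Y.S n).card : ℝ) ≤ (W true n k).card + (W false n k).card +
    2 * ∑ i ∈ Finset.range (n + 2 - k + 1), ((Y.S i).card : ℝ) * (Y.S (n + 2 - k - i)).card := by
    exact_mod_cast Y.main_ineq n k
  exact arith m _ _ _ _ _ _ hm (Real.one_le_exp (by linarith)) (Real.exp_pos _) hmainR
    (classB m hm t ht7 n k hk2 true) (classB m hm t ht7 n k hk2 false)
    (Y.classA m hm a s t hs0 hs14 ht0 hη h n k hk1)

theorem explicit : ∃ D : ℝ, 0 ≤ D ∧ ∀ j n : ℕ, ((Y.S n).card : ℝ) ≤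
    Real.exp (D * 3 ^ j + 14 * Real.log (j + 3) / (j + 3) * n) := by
  obtain ⟨K, hK, hbase⟩ := Y.P_base
  refine ⟨K + 100, by linarith, fun j => ?_⟩
  induction j with
  | zero =>
    intro n
    refine (hbase n).trans ?_
    rw [Real.exp_add]
    have h1 : K ≤ Real.exp ((K + 100) * 3 ^ 0) := by
      have := Real.add_one_le_exp ((K + 100) * (3 : ℝ) ^ 0)
      simp only [pow_zero, mul_one] at this ⊢
      linarith
    have h2 : Real.exp (3 * n) ≤ Real.exp (14 * Real.log (((0 : ℕ) : ℝ) + 3) /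
        (((0 : ℕ) : ℝ) + 3) * n) := by
      apply Real.exp_le_exp.2
      apply mul_le_mul_of_nonneg_right _ (Nat.cast_nonneg n)
      simp only [Nat.cast_zero, zero_add]
      have : (1 : ℝ) ≤ Real.log 3 := by
        rw [Real.le_log_iff_exp_le (by norm_num)]
        exact Real.exp_one_lt_three.le
      linarith
    exact mul_le_mul h1 h2 (Real.exp_pos _).le (Real.exp_pos _).le
  | succ j ih =>
    intro n
    have hj0 : (0 : ℝ) ≤ j := Nat.cast_nonneg j
    have h := Y.step_explicit ((j : ℝ) + 3) (by linarith) ((K + 100) * 3 ^ j)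
      (14 * Real.log (j + 3) / (j + 3)) (14 * Real.log ((j : ℝ) + 3 + 1) / ((j : ℝ) + 3 + 1))
      (by positivity) rfl rfl ih n
    refine h.trans ?_
    have e1 : 10 * ((j : ℝ) + 3) ^ 2 ≤ Real.exp (2 * ((j : ℝ) + 3) + 10) := by
      have h1 := Real.add_one_le_exp ((j : ℝ) + 3)
      have h2 := Real.add_one_le_exp (10 : ℝ)
      have h3 : Real.exp (2 * ((j : ℝ) + 3) + 10) =
          Real.exp ((j : ℝ) + 3) * Real.exp ((j : ℝ) + 3) * Real.exp 10 := by
        rw [← Real.exp_add, ← Real.exp_add]; ring_nf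
      rw [h3]
      have h4 : ((j : ℝ) + 3) ^ 2 ≤ Real.exp ((j : ℝ) + 3) * Real.exp ((j : ℝ) + 3) := by
        rw [pow_two]
        exact mul_le_mul (by linarith) (by linarith) (by linarith) (Real.exp_pos _).le
      calc 10 * ((j : ℝ) + 3) ^ 2 = ((j : ℝ) + 3) ^ 2 * 10 := by ring
        _ ≤ _ := mul_le_mul h4 (by linarith) (by norm_num) (by positivity)
    rw [← mul_assoc]
    have e2 : 10 * ((j : ℝ) + 3) ^ 2 * Real.exp (2 * ((K + 100) * 3 ^ j) + 28) ≤
        Real.exp ((K + 100) * 3 ^ (j + 1)) := by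
      calc 10 * ((j : ℝ) + 3) ^ 2 * Real.exp (2 * ((K + 100) * 3 ^ j) + 28)
          ≤ Real.exp (2 * ((j : ℝ) + 3) + 10) * Real.exp (2 * ((K + 100) * 3 ^ j) + 28) :=
            mul_le_mul_of_nonneg_right e1 (Real.exp_pos _).le
        _ = Real.exp (2 * ((j : ℝ) + 3) + 10 + (2 * ((K + 100) * 3 ^ j) + 28)) :=
            (Real.exp_add _ _).symm
        _ ≤ _ := by
            apply Real.exp_le_exp.2
            have h5 : (j : ℝ) + 1 ≤ 3 ^ j := by
              have h6 : ∀ j : ℕ, (j : ℝ) + 1 ≤ 3 ^ j := by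
                intro j
                induction j with
                | zero => simp
                | succ j ih2 =>
                  rw [pow_succ]; push_cast
                  have : (0 : ℝ) ≤ j := Nat.cast_nonneg j
                  linarith
              exact h6 j
            rw [pow_succ]
            nlinarith
    have e3 : Real.exp ((K + 100) * 3 ^ (j + 1) +
        14 * Real.log (((j + 1 : ℕ) : ℝ) + 3) / (((j + 1 : ℕ) : ℝ) + 3) * n) =
        Real.exp ((K + 100) * 3 ^ (j + 1)) *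
          Real.exp (14 * Real.log ((j : ℝ) + 3 + 1) / ((j : ℝ) + 3 + 1) * n) := by
      rw [← Real.exp_add]
      have : ((j + 1 : ℕ) : ℝ) + 3 = (j : ℝ) + 3 + 1 := by push_cast; ring
      rw [this]
    rw [e3]
    exact mul_le_mul_of_nonneg_right e2 (Real.exp_pos _).le

end Sys

end Pool.Agent.TMGrowth
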